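import Pool.Agent.W2helper31.BS.ExB
import Pool.Agent.Helper703.KL.Bruhat

set_option autoImplicit false
set_option linter.unusedSectionVars false

/-! Existence of the Kazhdan-Lusztig basis with unequal parameters. -/

namespace Pool.Agent.W2helper31.BS

open LaurentPolynomial Module Pool.Agent.Helper703.KL

/-- every Laurent polynomial is congruent to a bar-invariant one modulo `q⁻¹ ℤ[q⁻¹]` -/
lemma exists_symm (p : A) : ∃ μ : A, invert μ = μ ∧ Neg (p - μ) := by
  induction p using LaurentPolynomial.induction_on' with
  | add p r hp hr =>
    obtain ⟨μ, h1, h2⟩ := hp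
    obtain ⟨ν, h3, h4⟩ := hr
    refine ⟨μ + ν, by rw [map_add, h1, h3], ?_⟩
    have : p + r - (μ + ν) = (p - μ) + (r - ν) := by ring
    rw [this]
    exact h2.add h4
  | C_mul_T n a =>
    have hc : ∀ m k : ℤ, m ≠ k → (C a * T m : A).coeff k = 0 := by
      intro m k hmk
      rw [← smul_eq_C_mul, coeff_zsmul, T_apply, if_neg hmk, mul_zero]
    rcases lt_trichotomy n 0 with hn | hn | hn
    · refine ⟨0, map_zero _, ?_⟩
      rw [sub_zero]
      intro k hk
      exact hc n k (by omega)
    · subst hn
      refine ⟨C a * T 0, by rw [map_mul, invert_C, invert_T, neg_zero], ?_⟩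
      rw [sub_self]
      exact Neg.zero
    · refine ⟨C a * T n + C a * T (-n), ?_, ?_⟩
      · rw [map_add, map_mul, map_mul, invert_C, invert_T, invert_T, neg_neg, add_comm]
      · intro k hk
        rw [sub_add_cancel_left, coeff_neg, hc (-n) k (by omega), neg_zero]

variable {B : Type} {M : CoxeterMatrix B} {W : Type} [Group W] {cs : CoxeterSystem M W}
variable {L : W → ℕ}
variable {H : Type} [Ring H] [Algebra A H] {T : Basis W A H}

/-- the conditions on a single Kazhdan-Lusztig element -/
structure KE (hT : IsHk cs L T) (w : W) (h : H) : Prop where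
  bar_eq : hT.barR h = h
  diag : T.repr h w = 1
  neg : ∀ y, y ≠ w → Neg (T.repr h y)
  supp : ∀ y, T.repr h y ≠ 0 → BLe cs y w

lemma IsHk.barR_smul (hT : IsHk cs L T) (a : A) (h : H) :
    hT.barR (a • h) = (invert a : A) • hT.barR h := hT.barA_smul a h

lemma IsHk.bar_cs (hT : IsHk cs L T) (i : B) :
    hT.barR (T (cs.simple i) + v (-(L (cs.simple i) : ℤ)) • (1 : H))
      = T (cs.simple i) + v (-(L (cs.simple i) : ℤ)) • (1 : H) := by
  rw [map_add, hT.barR_smul, map_one, hT.barR_apply, hT.barA_T, hT.bT_simple, invert_T, neg_neg,
    par, sub_smul]
  abel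

open Classical in
lemma IsHk.repr_gen_mul (hT : IsHk cs L T) (i : B) (h : H) (x : W) :
    T.repr (T (cs.simple i) * h) x = T.repr h (cs.simple i * x)
      + (if cs.length (cs.simple i * x) < cs.length x then par cs L i else 0) * T.repr h x := by
  have key : (Finsupp.lapply x) ∘ₗ T.repr.toLinearMap ∘ₗ (LinearMap.mulLeft A (T (cs.simple i)))
      = (Finsupp.lapply (cs.simple i * x)) ∘ₗ T.repr.toLinearMap
        + (if cs.length (cs.simple i * x) < cs.length x then par cs L i else 0) •
          ((Finsupp.lapply x) ∘ₗ T.repr.toLinearMap) := by
    apply T.ext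
    intro y
    simp only [LinearMap.comp_apply, LinearMap.add_apply, LinearMap.smul_apply,
      LinearMap.mulLeft_apply, LinearEquiv.coe_coe, Finsupp.lapply_apply, Basis.repr_self,
      Finsupp.single_apply, smul_eq_mul]
    have hxy : (cs.simple i * y = x) ↔ (y = cs.simple i * x) := simple_mul_eq (cs := cs) i y x
    rcases lt_or_gt_of_ne (len_ne (cs := cs) i y) with h | h
    · rw [hT.left_down i y h, map_add, map_smul, Finsupp.add_apply, Finsupp.smul_apply,
        Basis.repr_self, Basis.repr_self, Finsupp.single_apply, Finsupp.single_apply, smul_eq_mul]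
      by_cases hy : y = x
      · subst hy
        simp only [h, if_true, hxy]
      · simp only [hxy, if_neg hy, mul_zero]
    · rw [hT.left_up _ y rfl i h, Basis.repr_self, Finsupp.single_apply]
      by_cases hy : y = x
      · subst hy
        simp only [not_lt.2 h.le, if_false, hxy, zero_mul, add_zero]
      · simp only [hxy, if_neg hy, mul_zero, add_zero]
  exact LinearMap.congr_fun key h

lemma bar_sum_smul (hT : IsHk cs L T) (S : Finset W) (μ : W → A) (c : W → H)
    (hμ : ∀ y ∈ S, invert (μ y) = μ y) (hc : ∀ y ∈ S, hT.barR (c y) = c y) :
    hT.barR (∑ y ∈ S, μ y • c y) = ∑ y ∈ S, μ y • c y := by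
  rw [map_sum]
  refine Finset.sum_congr rfl (fun y hy => ?_)
  rw [hT.barR_smul, hμ y hy, hc y hy]

lemma IsHk.exists_KE (hT : IsHk cs L T) (n : ℕ) :
    ∀ w, cs.length w = n → ∃ h, KE hT w h := by
  classical
  induction n using Nat.strong_induction_on with
  | _ n ih =>
    intro w hn
    by_cases hw1 : w = 1
    · subst hw1
      refine ⟨T 1, ?_, ?_, ?_, ?_⟩
      · rw [hT.one, map_one]
      · rw [Basis.repr_self, Finsupp.single_eq_same]
      · intro y hy
        rw [Basis.repr_self, Finsupp.single_eq_of_ne hy]
        exact Neg.zero
      · intro y hy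
        have : y = 1 := by
          by_contra h
          rw [Basis.repr_self, Finsupp.single_eq_of_ne h] at hy
          exact hy rfl
        subst this
        exact Relation.ReflTransGen.refl
    obtain ⟨i, hi⟩ := cs.exists_leftDescent_of_ne_one hw1
    have hi' : cs.length (cs.simple i * w) + 1 = cs.length w := cs.isLeftDescent_iff.1 hi
    set u := cs.simple i * w with hu
    have hwu : cs.simple i * u = w := by rw [hu, simple_simple]
    obtain ⟨Cu, hCu⟩ := ih (cs.length u) (by omega) u rfl
    have hdm : dmax cs i u = w := by
      rw [dmax, if_pos (by rw [hwu]; omega), hwu]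
    have hcw : T.repr Cu w = 0 := by
      by_contra hcon
      rcases BLe.length (hCu.supp w hcon) with h | h
      · rw [← h] at hi'
        omega
      · omega
    -- the starting element
    have key : ∀ k, k ≤ cs.length w → ∃ h, hT.barR h = h ∧ T.repr h w = 1 ∧
        (∀ y, T.repr h y ≠ 0 → BLe cs y w) ∧
        (∀ y, y ≠ w → cs.length w - k ≤ cs.length y → Neg (T.repr h y)) := by
      intro k
      induction k with
      | zero =>
        intro _
        have hrepr : ∀ x, T.repr ((T (cs.simple i) + v (-(L (cs.simple i) : ℤ)) • (1 : H)) * Cu) x
            = T.repr Cu (cs.simple i * x)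
              + (if cs.length (cs.simple i * x) < cs.length x then par cs L i else 0) * T.repr Cu x
              + v (-(L (cs.simple i) : ℤ)) * T.repr Cu x := by
          intro x
          rw [add_mul, smul_mul_assoc, one_mul, map_add, map_smul, Finsupp.add_apply,
            Finsupp.smul_apply, smul_eq_mul, hT.repr_gen_mul]
        have hsupp : ∀ y, T.repr ((T (cs.simple i) + v (-(L (cs.simple i) : ℤ)) • (1 : H)) * Cu) y
            ≠ 0 → BLe cs y w := by
          intro y hy
          by_cases h1 : T.repr Cu (cs.simple i * y) = 0
          · by_cases h2 : T.repr Cu y = 0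
            · exfalso
              apply hy
              rw [hrepr, h1, h2, mul_zero, mul_zero, add_zero, add_zero]
            · rw [← hdm]
              exact (BLe.lift i (hCu.supp _ h2)).1
          · have := (BLe.lift i (hCu.supp _ h1)).2
            rwa [simple_simple, hdm] at this
        refine ⟨(T (cs.simple i) + v (-(L (cs.simple i) : ℤ)) • (1 : H)) * Cu, ?_, ?_, hsupp, ?_⟩
        · rw [map_mul, hT.bar_cs, hCu.bar_eq]
        · rw [hrepr, ← hu, hCu.diag, hcw, mul_zero, mul_zero, add_zero, add_zero]
        · intro y hyw hy
          have h0 : T.repr ((T (cs.simple i) + v (-(L (cs.simple i) : ℤ)) • (1 : H)) * Cu) y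
              = 0 := by
            by_contra hcon
            rcases BLe.length (hsupp y hcon) with h | h
            · exact hyw h
            · omega
          rw [h0]
          exact Neg.zero
      | succ k ihk =>
        intro hk
        obtain ⟨h, hbar, hdiag, hsupp, hneg⟩ := ihk (by omega)
        set m := cs.length w - (k + 1) with hm
        have hm' : cs.length w - k = m + 1 := by omega
        set S : Finset W := (T.repr h).support.filter (fun y => y ≠ w ∧ cs.length y = m) with hS
        have hSm : ∀ y ∈ S, T.repr h y ≠ 0 ∧ y ≠ w ∧ cs.length y = m := by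
          intro y hy
          rw [hS, Finset.mem_filter, Finsupp.mem_support_iff] at hy
          exact ⟨hy.1, hy.2.1, hy.2.2⟩
        have hex : ∀ y, ∃ c, y ∈ S → KE hT y c := by
          intro y
          by_cases hy : y ∈ S
          · have h1 := hSm y hy
            obtain ⟨c, hc⟩ := ih (cs.length y) (by omega) y rfl
            exact ⟨c, fun _ => hc⟩
          · exact ⟨0, fun h => absurd h hy⟩
        choose c hc using hex
        choose μ hμ1 hμ2 using fun y => exists_symm (T.repr h y)
        have hsum : ∀ y, T.repr (h - ∑ z ∈ S, μ z • c z) y
            = T.repr h y - ∑ z ∈ S, μ z * T.repr (c z) y := by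
          intro y
          rw [map_sub, Finsupp.sub_apply, map_sum, Finsupp.finsetSum_apply]
          congr 1
          refine Finset.sum_congr rfl (fun z _ => ?_)
          rw [map_smul, Finsupp.smul_apply, smul_eq_mul]
        refine ⟨h - ∑ z ∈ S, μ z • c z, ?_, ?_, ?_, ?_⟩
        · rw [map_sub, hbar, bar_sum_smul hT S μ c (fun y _ => hμ1 y)
            (fun y hy => (hc y hy).bar_eq)]
        · rw [hsum, hdiag, Finset.sum_eq_zero, sub_zero]
          intro z hz
          have h1 := hSm z hz
          have h2 : T.repr (c z) w = 0 := by
            by_contra hcon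
            rcases BLe.length ((hc z hz).supp w hcon) with h3 | h3
            · exact h1.2.1 h3.symm
            · omega
          rw [h2, mul_zero]
        · intro y hy
          by_contra hcon
          apply hy
          rw [hsum]
          have h1 : T.repr h y = 0 := by
            by_contra h1
            exact hcon (hsupp y h1)
          rw [h1, Finset.sum_eq_zero, sub_zero]
          intro z hz
          have h2 : T.repr (c z) y = 0 := by
            by_contra h2
            exact hcon (Relation.ReflTransGen.trans ((hc z hz).supp y h2)
              (hsupp z (hSm z hz).1))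
          rw [h2, mul_zero]
        · intro y hyw hym
          rw [hsum]
          have hz0 : ∀ z ∈ S, z ≠ y → T.repr (c z) y = 0 := by
            intro z hz hzy
            by_contra h2
            rcases BLe.length ((hc z hz).supp y h2) with h3 | h3
            · exact hzy h3.symm
            · have := (hSm z hz).2.2
              omega
          by_cases hyS : y ∈ S
          · rw [Finset.sum_eq_single y (fun z hz hzy => by rw [hz0 z hz hzy, mul_zero])
              (fun h => absurd hyS h), (hc y hyS).diag, mul_one]
            exact hμ2 y
          · rw [Finset.sum_eq_zero (fun z hz => by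
              rw [hz0 z hz (fun h => hyS (h ▸ hz)), mul_zero]), sub_zero]
            by_cases hy0 : T.repr h y = 0
            · rw [hy0]
              exact Neg.zero
            · have h5 : cs.length y ≠ m := by
                intro h5
                apply hyS
                rw [hS, Finset.mem_filter, Finsupp.mem_support_iff]
                exact ⟨hy0, hyw, h5⟩
              exact hneg y hyw (by omega)
    obtain ⟨h, h1, h2, h3, h4⟩ := key (cs.length w) le_rfl
    exact ⟨h, h1, h2, fun y hy => h4 y hy (by omega), h3⟩

lemma IsHk.exists_basis (hT : IsHk cs L T) :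
    ∃ C : Basis W A H, ∀ w, KE hT w (C w) := by
  classical
  have hex := fun w => hT.exists_KE _ w rfl
  choose c hc using hex
  have hsupp : ∀ w y, T.repr (c w) y ≠ 0 → y = w ∨ cs.length y < cs.length w :=
    fun w y h => BLe.length ((hc w).supp y h)
  let F : (W →₀ A) →ₗ[A] H := Finsupp.linearCombination A c
  have hF : ∀ w, F (Finsupp.single w 1) = c w := by
    intro w
    simp only [F, Finsupp.linearCombination_single, one_smul]
  have hinj : Function.Injective F := by
    rw [injective_iff_map_eq_zero]
    intro x hx
    by_contra hne
    obtain ⟨y, hy, hmax⟩ := Finset.exists_max_image _ cs.length (Finsupp.support_nonempty_iff.2 hne)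
    have h1 : T.repr (F x) y = x y := by
      simp only [F, Finsupp.linearCombination_apply, Finsupp.sum]
      rw [map_sum, Finsupp.finsetSum_apply, Finset.sum_eq_single y]
      · rw [map_smul, Finsupp.smul_apply, (hc y).diag, smul_eq_mul, mul_one]
      · intro z hz hzy
        rw [map_smul, Finsupp.smul_apply]
        have : T.repr (c z) y = 0 := by
          by_contra h
          rcases hsupp z y h with h2 | h2
          · exact hzy h2.symm
          · have := hmax z hz
            omega
        rw [this, smul_zero]
      · intro h
        exact absurd hy h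
    rw [hx, map_zero, Finsupp.zero_apply] at h1
    exact (Finsupp.mem_support_iff.1 hy) h1.symm
  have hsurj : Function.Surjective F := by
    rw [← LinearMap.range_eq_top, eq_top_iff]
    have key : ∀ n, ∀ w : W, cs.length w = n → T w ∈ LinearMap.range F := by
      intro n
      induction n using Nat.strong_induction_on with
      | _ n ih =>
        intro w hw
        have h1 : c w = ∑ z ∈ (T.repr (c w)).support, T.repr (c w) z • T z := by
          conv_lhs => rw [← T.linearCombination_repr (c w)]
          rw [Finsupp.linearCombination_apply, Finsupp.sum]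
        have hwS : w ∈ (T.repr (c w)).support := by
          rw [Finsupp.mem_support_iff, (hc w).diag]
          exact one_ne_zero
        rw [← Finset.add_sum_erase _ _ hwS, (hc w).diag, one_smul] at h1
        have h2 : T w = c w - ∑ z ∈ (T.repr (c w)).support.erase w, T.repr (c w) z • T z := by
          rw [eq_sub_iff_add_eq]
          exact h1.symm
        rw [h2]
        apply Submodule.sub_mem
        · exact ⟨_, hF w⟩
        · apply Submodule.sum_mem
          intro z hz
          apply Submodule.smul_mem
          apply ih (cs.length z) _ z rfl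
          rcases hsupp w z (Finsupp.mem_support_iff.1 (Finset.mem_of_mem_erase hz)) with h | h
          · exact absurd h (Finset.ne_of_mem_erase hz)
          · omega
    intro x _
    rw [← T.linearCombination_repr x, Finsupp.linearCombination_apply, Finsupp.sum]
    apply Submodule.sum_mem
    intro w _
    exact Submodule.smul_mem _ _ (key _ w rfl)
  refine ⟨Basis.ofRepr (LinearEquiv.ofBijective F ⟨hinj, hsurj⟩).symm, ?_⟩
  intro w
  have : (Basis.ofRepr (LinearEquiv.ofBijective F ⟨hinj, hsurj⟩).symm) w = c w := hF w
  rw [this]
  exact hc w

/-- the Hecke algebra, the bar involution and the Kazhdan-Lusztig basis exist -/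
theorem heckeData_nonempty (cs : CoxeterSystem M W) {L : W → ℕ} (hL : IsWeight cs L) :
    Nonempty (HeckeData cs L) := by
  have hT := wTB_isHk hL
  obtain ⟨C, hC⟩ := hT.exists_basis
  exact ⟨{
    H := WHT cs L
    T := wTB hL
    isHk := hT
    bar := hT.barR
    isBr := ⟨hT.barR_scalar, hT.barR_gen⟩
    C := C
    isKLB := ⟨fun w => (hC w).bar_eq, fun w => (hC w).diag, fun w => (hC w).neg,
      fun w => (hC w).supp⟩ }⟩

end Pool.Agent.W2helper31.BS
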