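import Pool.Agent.W2helper31.BS.Defs

set_option autoImplicit false

/-! Access to the fields of the Hecke data. -/

namespace Pool.Agent.W2helper31.BS

open LaurentPolynomial Module Pool.Agent.Helper703.KL

variable {B : Type} {M : CoxeterMatrix B} {W : Type} [Group W] {cs : CoxeterSystem M W}
variable {L : W → ℕ} (D : HeckeData cs L)

lemma HeckeData.T_one : D.T 1 = 1 := D.isHk.one

lemma HeckeData.T_up (w : W) (i : B) (h : cs.length w < cs.length (w * cs.simple i)) :
    D.T w * D.T (cs.simple i) = D.T (w * cs.simple i) := D.isHk.up w i h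

lemma HeckeData.T_down (w : W) (i : B) (h : cs.length (w * cs.simple i) < cs.length w) :
    D.T w * D.T (cs.simple i) = D.T (w * cs.simple i) + par cs L i • D.T w := D.isHk.down w i h

lemma HeckeData.bar_scalar (a : A) :
    D.bar (algebraMap A D.H a) = algebraMap A D.H (invert a) := D.isBr.scalar a

lemma HeckeData.bar_T (i : B) : D.bar (D.T (cs.simple i)) * D.T (cs.simple i) = 1 := D.isBr.gen i

lemma HeckeData.C_bar (w : W) : D.bar (D.C w) = D.C w := D.isKLB.bar_eq w

lemma HeckeData.C_diag (w : W) : D.T.repr (D.C w) w = 1 := D.isKLB.diag w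

lemma HeckeData.C_neg (w y : W) (h : y ≠ w) : Neg (D.T.repr (D.C w) y) := D.isKLB.neg w y h

lemma HeckeData.C_supp (w y : W) (h : D.T.repr (D.C w) y ≠ 0) : BLe cs y w := D.isKLB.supp w y h

end Pool.Agent.W2helper31.BS
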