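import Pool.Agent.W2helper31.BS.Sys

set_option autoImplicit false
set_option linter.unusedSectionVars false

/-! The axioms (B1)-(B5). -/

namespace Pool.Agent.W2helper31.BS

open LaurentPolynomial Module Pool.Agent.Helper703.KL MulOpposite

variable {B : Type} {M : CoxeterMatrix B} {W : Type} [Group W] {cs : CoxeterSystem M W}
variable {L : W → ℕ} (D : HeckeData cs L)

/-- the entry of `C_w` at `(u, t)` in the rescaled basis -/
noncomputable def pe (Γ : Set W) (K : ℤ) (w u t : W) : A :=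
  (Bs D Γ K).repr (Bs D Γ K u * D.C w) t

lemma pe_eq (Γ : Set W) (K : ℤ) (w u t : W) :
    pe D Γ K w u t = v (ex Γ K u - ex Γ K t) * D.C.repr (D.C u * D.C w) t := by
  rw [pe, Bs_repr, Bs_apply, smul_mul_assoc, map_smul, Finsupp.smul_apply, smul_eq_mul,
    ← mul_assoc, v_mul_v]
  congr 2
  ring

open Classical in
lemma pe_one (Γ : Set W) (K : ℤ) (w t : W) :
    pe D Γ K w 1 t = if w = t then v (ex Γ K 1 - ex Γ K t) else 0 := by
  rw [pe_eq, C_one, one_mul, Basis.repr_self, Finsupp.single_apply]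
  split_ifs
  · rw [mul_one]
  · rw [mul_zero]

lemma cf_con (p : A) (m : Fin 0 →₀ ℕ) (k : ℤ) : cf (con p : S0) m k = p.coeff k := by
  unfold cf con
  show (MvPolynomial.coeff m (MvPolynomial.C p : MvPolynomial (Fin 0) A)).coeff k = p.coeff k
  rw [MvPolynomial.coeff_C, if_pos (Subsingleton.elim _ _)]

lemma inNonpos_iff {a : ℕ} {p : A} :
    InNonpos (con (v (-(a : ℤ))) * (con p : S0)) ↔ DegLe a p := by
  unfold InNonpos DegLe
  rw [← con_mul]
  constructor
  · intro h n hn
    have h1 := h 0 (n - a) (by omega)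
    rw [cf_con, coeff_v_mul] at h1
    have h2 : n - (a : ℤ) - -(a : ℤ) = n := by ring
    rwa [h2] at h1
  · intro h m k hk
    rw [cf_con, coeff_v_mul]
    exact h _ (by omega)

lemma spec_eq {a : ℕ} {p : A} (m : Fin 0 →₀ ℕ) :
    spec (con (v (-(a : ℤ))) * (con p : S0)) m = p.coeff a := by
  unfold spec
  rw [← con_mul, cf_con, coeff_v_mul]
  congr 1
  ring

lemma scaled_eq (Γ : Set W) (K : ℤ) (a : ℕ) (w : W) (u t : {w : W // ∃ g ∈ Γ, LRLe D g w}) :
    scaled D (rep D Γ K) a w u t = con (v (-(a : ℤ))) * (con (pe D Γ K w u.1 t.1) : S0) := by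
  unfold scaled
  exact congrArg _ (rep_entry D Γ K (D.C w) u t)

lemma boundedBy_iff (Γ : Set W) (K : ℤ) (a : ℕ) :
    BoundedBy D (rep D Γ K) a ↔ ∀ w (u t : {w : W // ∃ g ∈ Γ, LRLe D g w}),
      DegLe a (pe D Γ K w u.1 t.1) := by
  constructor
  · intro h w u t
    have h1 := h w u t
    rw [scaled_eq] at h1
    exact inNonpos_iff.1 h1
  · intro h w u t
    have h1 := scaled_eq D Γ K a w u t
    rw [h1]
    exact inNonpos_iff.2 (h w u t)

lemma lead_apply (Γ : Set W) (K : ℤ) (a : ℕ) (w : W) (u t : {w : W // ∃ g ∈ Γ, LRLe D g w})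
    (m : Fin 0 →₀ ℕ) :
    lead D (rep D Γ K) a w u t m = (pe D Γ K w u.1 t.1).coeff a := by
  unfold lead
  rw [scaled_eq]
  exact spec_eq m

lemma lead_ext (Γ : Set W) (K : ℤ) (a : ℕ) (w : W)
    {F : {w : W // ∃ g ∈ Γ, LRLe D g w} → {w : W // ∃ g ∈ Γ, LRLe D g w} → (Fin 0 →₀ ℕ) → ℤ}
    (h : ∀ u t m, lead D (rep D Γ K) a w u t m = F u t m) : lead D (rep D Γ K) a w = F := by
  funext u t m
  exact h u t m

variable {D}

lemma LRLe.rfl' {w : W} : LRLe D w w := Relation.ReflTransGen.refl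

lemma le_one (w : W) : LRLe D w 1 := by
  classical
  apply Relation.ReflTransGen.single
  refine ⟨D.C w, 1, ?_⟩
  show D.C.repr (D.C w * D.C 1 * 1) w ≠ 0
  rw [C_one, mul_one, mul_one, Basis.repr_self, Finsupp.single_eq_same]
  exact one_ne_zero

lemma IsCell.nonempty {Γ : Set W} (h : IsCell D Γ) : Γ.Nonempty := by
  obtain ⟨w, rfl⟩ := h
  exact ⟨w, LRLe.rfl', LRLe.rfl'⟩

lemma IsCell.eq_of_one (hL : IsWeight cs L) {Γ : Set W} (h : IsCell D Γ) (h1 : (1 : W) ∈ Γ) :
    Γ = {1} := by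
  obtain ⟨w, rfl⟩ := h
  have hw : w = 1 := one_le hL h1.1
  subst hw
  ext x
  constructor
  · rintro ⟨_, hx⟩
    exact one_le hL hx
  · rintro rfl
    exact ⟨LRLe.rfl', LRLe.rfl'⟩

open Classical in
/-- the bounds -/
noncomputable def ab (N : ℕ) (Γ : Set W) : ℕ := if (1 : W) ∈ Γ then 0 else N + 2

variable (D) in
lemma b1 (Γ : Set W) (K : ℤ) {w : W} (hw : ¬ ∃ g ∈ Γ, LRLe D g w) :
    ∀ x, (rep D Γ K).mulR x (D.C w) = 0 := by
  have h : actL D Γ K (D.C w) = 0 := by
    apply actL_ext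
    intro n
    rw [actL_up, rho_apply, Pm_mul_right D Γ K hw, up_zero, LinearMap.zero_apply]
  intro x
  exact LinearMap.congr_fun h x

open Classical in
/-- the case `Γ = {e}` -/
lemma pe_cell_one (hL : IsWeight cs L) {Γ : Set W} (hΓ : Γ = {1}) (K : ℤ) (w : W)
    (u t : {w : W // ∃ g ∈ Γ, LRLe D g w}) : pe D Γ K w u.1 t.1 = if w = 1 then 1 else 0 := by
  have h1 : ∀ x : {w : W // ∃ g ∈ Γ, LRLe D g w}, x.1 = 1 := by
    rintro ⟨x, g, hg, hx⟩
    rw [hΓ] at hg
    rw [Set.mem_singleton_iff] at hg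
    subst hg
    exact one_le hL hx
  rw [h1 u, h1 t, pe_one]
  split_ifs
  · rw [sub_self]; exact T_zero
  · rfl

section big

variable {N : ℕ} (hN : ∀ x y z : W, DegLe N (D.C.repr (D.C x * D.C y) z))
variable {Γ : Set W} (h1 : (1 : W) ∉ Γ)

include h1 in
lemma pe_top {w : W} (hw : w ∈ Γ) : pe D Γ (N + 1) w 1 w = v (N + 2) := by
  have hw1 : w ≠ 1 := by
    rintro rfl
    exact h1 hw
  rw [pe_one, if_pos rfl, ex, if_pos rfl, ex, if_neg hw1, if_pos hw]
  congr 1

include hN h1 in
lemma pe_deg (w u t : W) (h : ¬ (u = 1 ∧ w ∈ Γ)) : DegLe (N + 1) (pe D Γ (N + 1) w u t) := by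
  by_cases hu : u = 1
  · subst hu
    have hw : w ∉ Γ := fun hw => h ⟨rfl, hw⟩
    rw [pe_one]
    split_ifs with hwt
    · subst hwt
      apply DegLe.v
      rw [ex, if_pos rfl, ex]
      split_ifs
      · omega
      · omega
    · exact DegLe.zero _
  · rw [pe_eq]
    have h2 : ex Γ (N + 1 : ℤ) u - ex Γ (N + 1 : ℤ) t ≤ 1 := by
      unfold ex
      split_ifs <;> omega
    refine ((DegLe.v h2).mul (hN u w t)).mono (by omega)

include hN h1 in
lemma pe_deg' (w u t : W) : DegLe (N + 2) (pe D Γ (N + 1) w u t) := by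
  by_cases h : u = 1 ∧ w ∈ Γ
  · obtain ⟨rfl, hw⟩ := h
    have hw1 : w ≠ 1 := by
      rintro rfl
      exact h1 hw
    rw [pe_one]
    split_ifs with hwt
    · subst hwt
      apply DegLe.v
      rw [ex, if_pos rfl, ex, if_neg hw1, if_pos hw]
      omega
    · exact DegLe.zero _
  · exact (pe_deg hN h1 w u t h).mono (by omega)

open Classical in
include hN h1 in
lemma pe_coeff (w u t : W) :
    (pe D Γ (N + 1) w u t).coeff ((N + 2 : ℕ) : ℤ) = if u = 1 ∧ w ∈ Γ ∧ w = t then 1 else 0 := by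
  by_cases h : u = 1 ∧ w ∈ Γ
  · obtain ⟨rfl, hw⟩ := h
    by_cases hwt : w = t
    · subst hwt
      rw [pe_top h1 hw, if_pos ⟨rfl, hw, rfl⟩, T_apply, if_pos (by push_cast; ring)]
    · rw [if_neg (fun h => hwt h.2.2), pe_one, if_neg hwt]
      rfl
  · rw [if_neg (fun h' => h ⟨h'.1, h'.2.1⟩)]
    exact pe_deg hN h1 w u t h _ (by push_cast; omega)

end big

open Classical in
theorem balanced_exists [Fintype B] (hM : IsAffineWeyl M) (hL : IsWeight cs L)
    (D : HeckeData cs L) : ∃ (π : Set W → MatRep D.H) (a : Set W → ℕ), IsBalanced D π a := by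
  obtain ⟨N, hN⟩ := exists_bound hM D
  refine ⟨fun Γ => rep D Γ (N + 1), ab N, ⟨?_, ?_⟩⟩
  refine fun Γ hΓ => ⟨?_, ?_, ?_, ?_⟩
  · intro w hw
    exact b1 D Γ _ hw
  · obtain ⟨g, hg⟩ := hΓ.nonempty
    by_cases h1 : (1 : W) ∈ Γ
    · have hΓ1 := hΓ.eq_of_one hL h1
      rw [ab, if_pos h1]
      refine ⟨?_, fun n _ => Nat.zero_le n⟩
      rw [Set.mem_ofPred_eq, boundedBy_iff]
      intro w u t
      rw [pe_cell_one hL hΓ1]
      split_ifs
      · exact DegLe.one le_rfl
      · exact DegLe.zero _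
    · rw [ab, if_neg h1]
      constructor
      · rw [Set.mem_ofPred_eq, boundedBy_iff]
        intro w u t
        exact (pe_deg' hN h1 w u.1 t.1).mono (by push_cast; exact le_rfl)
      · intro n hn
        rw [Set.mem_ofPred_eq, boundedBy_iff] at hn
        have h2 := hn g ⟨1, g, hg, le_one g⟩ ⟨g, g, hg, LRLe.rfl'⟩
        simp only at h2
        rw [pe_top h1 hg] at h2
        by_contra hcon
        have h3 := h2 (N + 2) (by omega)
        rw [T_apply, if_pos rfl] at h3
        exact one_ne_zero h3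
  · intro w
    by_cases h1 : (1 : W) ∈ Γ
    · have hΓ1 := hΓ.eq_of_one hL h1
      rw [ab, if_pos h1]
      have key : ∀ u t m, lead D (rep D Γ (N + 1)) 0 w u t m = if w = 1 then 1 else 0 := by
        intro u t m
        rw [lead_apply, pe_cell_one hL hΓ1]
        split_ifs
        · rw [coeff_one, if_pos (by norm_num)]
        · rfl
      constructor
      · intro h
        rw [hΓ1, Set.mem_singleton_iff]
        by_contra hw
        apply h
        apply lead_ext
        intro u t m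
        rw [key u t m, if_neg hw]
        rfl
      · intro hw h
        rw [hΓ1, Set.mem_singleton_iff] at hw
        have h2 := key ⟨1, 1, h1, le_one 1⟩ ⟨1, 1, h1, le_one 1⟩ 0
        rw [h, if_pos hw] at h2
        exact zero_ne_one h2
    · rw [ab, if_neg h1]
      constructor
      · intro h
        by_contra hw
        apply h
        apply lead_ext
        intro u t m
        rw [lead_apply, pe_coeff hN h1, if_neg (fun h' => hw h'.2.1)]
        rfl
      · intro hw h
        have h2 := lead_apply D Γ (N + 1) (N + 2) w ⟨1, w, hw, le_one w⟩ ⟨w, w, hw, LRLe.rfl'⟩ 0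
        rw [h, pe_coeff hN h1, if_pos ⟨rfl, hw, rfl⟩] at h2
        exact zero_ne_one h2
  · rw [linearIndependent_iff']
    intro s g hg i hi
    by_cases h1 : (1 : W) ∈ Γ
    · have hΓ1 := hΓ.eq_of_one hL h1
      rw [ab, if_pos h1] at hg
      have hall : ∀ j : Γ, (j : W) = 1 := by
        intro j
        have h4 : (j : W) ∈ ({1} : Set W) := hΓ1 ▸ j.2
        exact h4
      have h2 := congrFun (congrFun (congrFun hg ⟨1, 1, h1, le_one 1⟩) ⟨1, 1, h1, le_one 1⟩) 0
      rw [Finset.sum_apply, Finset.sum_apply, Finset.sum_apply] at h2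
      rw [Finset.sum_eq_single i] at h2
      · rw [Pi.smul_apply, Pi.smul_apply, Pi.smul_apply, lead_apply, pe_cell_one hL hΓ1,
          if_pos (hall i)] at h2
        have h3 : (1 : A).coeff ((0 : ℕ) : ℤ) = 1 := by
          rw [coeff_one, if_pos (by norm_num)]
        rw [h3, smul_eq_mul, mul_one] at h2
        exact h2
      · intro j _ hji
        exact absurd (Subtype.ext ((hall j).trans (hall i).symm)) hji
      · intro h
        exact absurd hi h
    · rw [ab, if_neg h1] at hg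
      have h2 := congrFun (congrFun (congrFun hg ⟨1, i.1, i.2, le_one i.1⟩)
        ⟨i.1, i.1, i.2, LRLe.rfl'⟩) 0
      rw [Finset.sum_apply, Finset.sum_apply, Finset.sum_apply] at h2
      rw [Finset.sum_eq_single i] at h2
      · rw [Pi.smul_apply, Pi.smul_apply, Pi.smul_apply, lead_apply, pe_coeff hN h1,
          if_pos ⟨rfl, i.2, rfl⟩, smul_eq_mul, mul_one] at h2
        exact h2
      · intro j _ hji
        rw [Pi.smul_apply, Pi.smul_apply, Pi.smul_apply, lead_apply, pe_coeff hN h1, if_neg,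
          smul_zero]
        rintro ⟨_, _, h3⟩
        exact hji (Subtype.ext h3)
      · intro h
        exact absurd hi h
  · intro Γ Γ' hΓ hΓ' ⟨x, hx, y, hy, hxy⟩
    unfold ab
    by_cases h1 : (1 : W) ∈ Γ'
    · have hΓ1 := hΓ'.eq_of_one hL h1
      rw [hΓ1, Set.mem_singleton_iff] at hx
      subst hx
      have hy1 : y = 1 := one_le hL hxy
      subst hy1
      rw [if_pos hy]
      exact Nat.zero_le _
    · rw [if_neg h1]
      split_ifs
      · exact Nat.zero_le _
      · exact le_rfl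

end Pool.Agent.W2helper31.BS
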