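import Pool.Agent.W2helper31.BS.Hk

set_option autoImplicit false
set_option linter.unusedSectionVars false

/-! The sign character, and the identity element is the unique maximum for `≤_LR`. -/

namespace Pool.Agent.W2helper31.BS

open LaurentPolynomial Module Pool.Agent.Helper703.KL Pool.Agent.Helper703.Cox

variable {B : Type} {M : CoxeterMatrix B} {W : Type} [Group W] {cs : CoxeterSystem M W}
variable {L : W → ℕ}

/-- the value of the sign character at `T_w` -/
noncomputable def cv (cs : CoxeterSystem M W) (L : W → ℕ) (w : W) : A :=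
  (-1) ^ cs.length w * v (-(L w : ℤ))

/-- the sign character, as a linear map -/
noncomputable def chi (D : HeckeData cs L) : D.H →ₗ[A] A := D.T.constr A (cv cs L)

variable {D : HeckeData cs L}

lemma chi_T (w : W) : chi D (D.T w) = cv cs L w := by
  rw [chi, Basis.constr_basis]

lemma IsWeight.one (hL : IsWeight cs L) : L 1 = 0 := by
  have h := hL.add 1 1 (by simp)
  rw [mul_one] at h
  omega

lemma cv_one (hL : IsWeight cs L) : cv cs L 1 = 1 := by
  rw [cv, cs.length_one, hL.one]
  simp

lemma cv_up (hL : IsWeight cs L) {w : W} {i : B}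
    (h : cs.length w < cs.length (w * cs.simple i)) :
    cv cs L (w * cs.simple i) = cv cs L w * (-v (-(L (cs.simple i) : ℤ))) := by
  have h1 : cs.length (w * cs.simple i) = cs.length w + 1 := by
    rcases cs.length_mul_simple w i with h2 | h2 <;> omega
  have h2 : L (w * cs.simple i) = L w + L (cs.simple i) :=
    hL.add _ _ (by rw [cs.length_simple]; exact h1)
  have h3 : v (-((L w + L (cs.simple i) : ℕ) : ℤ)) = v (-(L w : ℤ)) * v (-(L (cs.simple i) : ℤ)) := by
    rw [v_mul_v]
    congr 1
    push_cast
    ring
  rw [cv, cv, h1, h2, h3, pow_succ]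
  ring

lemma chi_mul_simple (hL : IsWeight cs L) (h : D.H) (i : B) :
    chi D (h * D.T (cs.simple i)) = chi D h * (-v (-(L (cs.simple i) : ℤ))) := by
  have key : (chi D) ∘ₗ (LinearMap.mulRight A (D.T (cs.simple i)))
      = (LinearMap.mulRight A (-v (-(L (cs.simple i) : ℤ)))) ∘ₗ chi D := by
    apply D.T.ext
    intro w
    simp only [LinearMap.comp_apply, LinearMap.mulRight_apply]
    rcases cs.length_mul_simple w i with h1 | h1
    · rw [D.T_up w i (by omega), chi_T, chi_T, cv_up hL (by omega)]
    · have h2 : w = (w * cs.simple i) * cs.simple i := by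
        rw [cs.simple_mul_simple_cancel_right]
      have h3 : cv cs L w = cv cs L (w * cs.simple i) * (-v (-(L (cs.simple i) : ℤ))) := by
        conv_lhs => rw [h2]
        exact cv_up hL (by rw [← h2]; omega)
      rw [D.T_down w i (by omega), map_add, map_smul, chi_T, chi_T, h3, smul_eq_mul, par]
      have h4 : v (L (cs.simple i) : ℤ) * v (-(L (cs.simple i) : ℤ)) = 1 := by
        rw [v_mul_v, add_neg_cancel]; exact T_zero
      linear_combination (-cv cs L (w * cs.simple i)) * h4
  exact LinearMap.congr_fun key h

lemma chi_mul_T (hL : IsWeight cs L) (n : ℕ) : ∀ (w : W), cs.length w = n → ∀ h : D.H,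
    chi D (h * D.T w) = chi D h * cv cs L w := by
  induction n with
  | zero =>
    intro w hw h
    rw [cs.length_eq_zero_iff] at hw
    subst hw
    rw [D.T_one, mul_one, cv_one hL, mul_one]
  | succ n ih =>
    intro w hw h
    have hw1 : w ≠ 1 := by
      rintro rfl
      rw [cs.length_one] at hw
      omega
    obtain ⟨j, hj⟩ := cs.exists_rightDescent_of_ne_one hw1
    have hj' : cs.length (w * cs.simple j) + 1 = cs.length w := cs.isRightDescent_iff.1 hj
    set u := w * cs.simple j with hu
    have huw : w = u * cs.simple j := by rw [hu, cs.simple_mul_simple_cancel_right]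
    have hlt : cs.length u < cs.length (u * cs.simple j) := by rw [← huw]; omega
    rw [huw, ← D.T_up u j hlt, ← mul_assoc, chi_mul_simple hL, ih u (by omega), cv_up hL hlt,
      mul_assoc]

lemma chi_mul (hL : IsWeight cs L) (h k : D.H) : chi D (h * k) = chi D h * chi D k := by
  have key : (chi D) ∘ₗ (LinearMap.mulLeft A h) = (LinearMap.mulLeft A (chi D h)) ∘ₗ chi D := by
    apply D.T.ext
    intro w
    simp only [LinearMap.comp_apply, LinearMap.mulLeft_apply]
    rw [chi_mul_T hL _ w rfl, chi_T]
  exact LinearMap.congr_fun key k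

lemma chi_one (hL : IsWeight cs L) : chi D 1 = 1 := by
  rw [← D.T_one, chi_T, cv_one hL]

lemma bar_smul (a : A) (h : D.H) : D.bar (a • h) = (invert a : A) • D.bar h := by
  rw [Algebra.smul_def, map_mul, D.bar_scalar, Algebra.smul_def]

lemma chi_bar_simple (hL : IsWeight cs L) (i : B) :
    chi D (D.bar (D.T (cs.simple i))) = -v (L (cs.simple i) : ℤ) := by
  have h1 : cv cs L (cs.simple i) = -v (-(L (cs.simple i) : ℤ)) := by
    have := cv_up (cs := cs) hL (w := 1) (i := i) (by simp)
    rwa [one_mul, cv_one hL, one_mul] at this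
  have h2 := congrArg (chi D) (D.bar_T i)
  rw [chi_mul hL, chi_one hL, chi_T, h1] at h2
  have h4 : v (-(L (cs.simple i) : ℤ)) * v (L (cs.simple i) : ℤ) = 1 := by
    rw [v_mul_v, neg_add_cancel]; exact T_zero
  linear_combination (-v (L (cs.simple i) : ℤ)) * h2 - (chi D (D.bar (D.T (cs.simple i)))) * h4

lemma chi_bar_T (hL : IsWeight cs L) (n : ℕ) : ∀ (w : W), cs.length w = n →
    chi D (D.bar (D.T w)) = invert (cv cs L w) := by
  induction n with
  | zero =>
    intro w hw
    rw [cs.length_eq_zero_iff] at hw
    subst hw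
    rw [D.T_one, map_one, chi_one hL, cv_one hL, map_one]
  | succ n ih =>
    intro w hw
    have hw1 : w ≠ 1 := by
      rintro rfl
      rw [cs.length_one] at hw
      omega
    obtain ⟨j, hj⟩ := cs.exists_rightDescent_of_ne_one hw1
    have hj' : cs.length (w * cs.simple j) + 1 = cs.length w := cs.isRightDescent_iff.1 hj
    set u := w * cs.simple j with hu
    have huw : w = u * cs.simple j := by rw [hu, cs.simple_mul_simple_cancel_right]
    have hlt : cs.length u < cs.length (u * cs.simple j) := by rw [← huw]; omega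
    rw [huw, ← D.T_up u j hlt, map_mul, chi_mul hL, ih u (by omega), chi_bar_simple hL,
      cv_up hL hlt, map_mul, map_neg, invert_T, neg_neg]

lemma chi_bar (hL : IsWeight cs L) (h : D.H) : chi D (D.bar h) = invert (chi D h) := by
  rw [expand D.T h, map_sum, map_sum, map_sum, map_sum]
  refine Finset.sum_congr rfl (fun z _ => ?_)
  rw [bar_smul, map_smul, map_smul, chi_bar_T hL _ z rfl, chi_T, smul_eq_mul, smul_eq_mul,
    map_mul]

lemma chi_C (hL : IsWeight cs L) {w : W} (hw : w ≠ 1) : chi D (D.C w) = 0 := by
  apply eq_zero_of_invert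
  · rw [← chi_bar hL, D.C_bar]
  · rw [expand D.T (D.C w), map_sum]
    apply Neg.sum
    intro y _
    rw [map_smul, chi_T, smul_eq_mul, cv]
    have h1 : DegLe (-(L y : ℤ)) ((-1) ^ cs.length y * v (-(L y : ℤ))) := by
      have h2 : DegLe 0 ((-1 : A) ^ cs.length y) := by
        rcases neg_one_pow_eq_or A (cs.length y) with h | h
        · rw [h]; exact DegLe.one le_rfl
        · rw [h]; exact (DegLe.one le_rfl).neg
      have := h2.mul (DegLe.v (le_refl (-(L y : ℤ))))
      rwa [zero_add] at this
    by_cases hy : y = w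
    · subst hy
      rw [D.C_diag, one_mul]
      exact h1.neg_of (by have := hL.pos y hw; omega)
    · have h3 := (DegLe.of_neg (D.C_neg w y hy)).mul h1
      exact h3.neg_of (by omega)

lemma C_one : D.C 1 = 1 := by
  classical
  have h : D.T.repr (D.C 1) = Finsupp.single 1 1 := by
    apply Finsupp.ext
    intro y
    rw [Finsupp.single_apply]
    split_ifs with h
    · rw [← h, D.C_diag]
    · by_contra hcon
      rcases BLe.length (D.C_supp 1 y hcon) with h1 | h1
      · exact h h1.symm
      · rw [cs.length_one] at h1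
        omega
  rw [← D.T_one, ← D.T.repr.injective.eq_iff, h, Basis.repr_self]

lemma chi_eq (hL : IsWeight cs L) (h : D.H) : chi D h = D.C.repr h 1 := by
  classical
  conv_lhs => rw [expand D.C h]
  rw [map_sum]
  have h1 : ∀ z ∈ (D.C.repr h).support, chi D (D.C.repr h z • D.C z)
      = if z = 1 then D.C.repr h 1 else 0 := by
    intro z _
    rw [map_smul, smul_eq_mul]
    split_ifs with hz
    · rw [hz, C_one, chi_one hL, mul_one]
    · rw [chi_C hL hz, mul_zero]
  rw [Finset.sum_congr rfl h1, Finset.sum_ite_eq' ]
  split_ifs with h2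
  · rfl
  · exact (Finsupp.notMem_support_iff.1 h2).symm

/-- `e ≤_LR w` only for `w = e` -/
lemma one_le (hL : IsWeight cs L) {w : W} (h : LRLe D 1 w) : w = 1 := by
  induction h with
  | refl => rfl
  | tail _ hstep ih =>
    rename_i b c _
    subst ih
    obtain ⟨h, h', hh⟩ := hstep
    by_contra hc
    apply hh
    show D.C.repr (h * D.C c * h') 1 = 0
    rw [← chi_eq hL, chi_mul hL, chi_mul hL, chi_C hL hc, mul_zero, zero_mul]

end Pool.Agent.W2helper31.BS
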