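import Pool.Agent.Helper703.KL.Defs

set_option autoImplicit false

/-! Definitions used in the statement on balanced systems of cell representations: affine Weyl
groups, positive weight functions, Hecke algebras with unequal parameters and their
Kazhdan-Lusztig bases, two-sided cells, matrix representations, balanced systems. -/

namespace Pool.Agent.W2helper31.BS

open LaurentPolynomial Module Pool.Agent.Helper703.KL MulOpposite

section group

variable {B : Type} (M : CoxeterMatrix B)

/-- The entry `-cos (π / m_ij)` of the Tits form.  Mathlib codes `m_ij = ∞` by `0`; then this is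
`-cos 0 = -1`, as usual. -/
noncomputable def tits (i j : B) : ℝ := -Real.cos (Real.pi / (M i j : ℝ))

/-- Coxeter matrices of affine Weyl groups: the Tits form is positive semidefinite, and for
suitable lengths `c i > 0` the lattice spanned by the vectors `c i • α_i` is a root lattice, that
is, all the numbers `2 (α_i, α_j) c_j / c_i` are integers.  (This allows reducible systems, and
components which are finite Weyl groups.) -/
structure IsAffineWeyl [Fintype B] : Prop where
  psd : ∀ x : B → ℝ, 0 ≤ ∑ i, ∑ j, x i * x j * tits M i j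
  lattice : ∃ c : B → ℝ, (∀ i, 0 < c i) ∧ ∀ i j, ∃ n : ℤ, 2 * tits M i j * c j = n * c i

variable {M} {W : Type} [Group W] (cs : CoxeterSystem M W)

/-- A positive weight function `L : W → ℕ`. -/
structure IsWeight (L : W → ℕ) : Prop where
  pos : ∀ w, w ≠ 1 → 0 < L w
  add : ∀ w w', cs.length (w * w') = cs.length w + cs.length w' → L (w * w') = L w + L w'

end group

section hecke

variable {B : Type} {M : CoxeterMatrix B} {W : Type} [Group W] (cs : CoxeterSystem M W)
variable (L : W → ℕ)

/-- The parameter `q_s - q_s⁻¹`, where `q_s = q ^ L(s)`.  (The Laurent polynomial ring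
`R = ℤ[q, q⁻¹]` is written `A`, with `q ^ n` written `v n`.) -/
noncomputable def par (i : B) : A := v (L (cs.simple i)) - v (-(L (cs.simple i) : ℤ))

/-- the coefficient of the basis element `b w` in `h` -/
noncomputable abbrev coord {ι H : Type} [AddCommGroup H] [Module A H] (b : Basis ι A H) (h : H)
    (w : ι) : A := b.repr h w

/-- `T` is the standard basis `T_w` of the Hecke algebra `H` of `(W, S, L)`. -/
structure IsHk {H : Type} [Ring H] [Algebra A H] (T : Basis W A H) : Prop where
  one : T 1 = 1
  up : ∀ w i, cs.length w < cs.length (w * cs.simple i) →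
    T w * T (cs.simple i) = T (w * cs.simple i)
  down : ∀ w i, cs.length (w * cs.simple i) < cs.length w →
    T w * T (cs.simple i) = T (w * cs.simple i) + par cs L i • T w

/-- `bar` is the bar involution: the ring endomorphism with `q ↦ q⁻¹` and `T_s ↦ T_s⁻¹`. -/
structure IsBr {H : Type} [Ring H] [Algebra A H] (T : Basis W A H) (bar : H →+* H) : Prop where
  scalar : ∀ a : A, bar (algebraMap A H a) = algebraMap A H (invert a)
  gen : ∀ i, bar (T (cs.simple i)) * T (cs.simple i) = 1

/-- `C` is the Kazhdan-Lusztig basis: bar-invariant with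
`C_w ∈ T_w + ∑_{y < w} q⁻¹ ℤ[q⁻¹] T_y`. -/
structure IsKLB {H : Type} [Ring H] [Algebra A H] (T : Basis W A H) (bar : H →+* H)
    (C : Basis W A H) : Prop where
  bar_eq : ∀ w, bar (C w) = C w
  diag : ∀ w, coord T (C w) w = 1
  neg : ∀ w y, y ≠ w → Neg (coord T (C w) y)
  supp : ∀ w y, coord T (C w) y ≠ 0 → BLe cs y w

/-- The Hecke algebra `H` of `(W, S, L)` with its standard basis `T_w`, its bar involution, and
its Kazhdan-Lusztig basis `C_w`. -/
structure HeckeData where
  H : Type
  [ring : Ring H]
  [alg : Algebra A H]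
  T : Basis W A H
  isHk : IsHk cs L T
  bar : H →+* H
  isBr : IsBr cs T bar
  C : Basis W A H
  isKLB : IsKLB cs T bar C

attribute [instance] HeckeData.ring HeckeData.alg

variable {cs L} (D : HeckeData cs L)

/-- `C_x` occurs in `h C_y h'` for some `h, h' ∈ H`. -/
def LRStep (x y : W) : Prop := ∃ h h' : D.H, coord D.C (h * D.C y * h') x ≠ 0

/-- The preorder `x ≤_LR y`. -/
def LRLe (x y : W) : Prop := Relation.ReflTransGen (LRStep D) x y

/-- `Γ` is a two-sided cell. -/
def IsCell (Γ : Set W) : Prop := ∃ w, Γ = {x | LRLe D x w ∧ LRLe D w x}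

end hecke

section rep

/-- The polynomial ring `S = R[ζ_1, …, ζ_n]` over `R = ℤ[q, q⁻¹]`. -/
def PS (n : ℕ) : Type := MvPolynomial (Fin n) A

/-- the ring structure of the polynomial ring -/
noncomputable def polyRing (n : ℕ) : CommRing (MvPolynomial (Fin n) A) := inferInstance

noncomputable instance (n : ℕ) : CommRing (PS n) := polyRing n

/-- the inclusion `R → S` -/
noncomputable def con {n : ℕ} (a : A) : PS n := (MvPolynomial.C a : MvPolynomial (Fin n) A)

/-- the coefficient of `q ^ k ζ ^ m` in an element of `S` -/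
noncomputable def cf {n : ℕ} (x : PS n) (m : Fin n →₀ ℕ) (k : ℤ) : ℤ :=
  (MvPolynomial.coeff m (show MvPolynomial (Fin n) A from x)).coeff k

/-- A matrix representation of `H` over a polynomial ring `S = R[ζ_1, …, ζ_n]`: a right
`H`-module `V` over `S` with a basis. -/
structure MatRep (H : Type) [Ring H] [Algebra A H] where
  n : ℕ
  Idx : Type
  V : Type
  [grp : AddCommGroup V]
  [mod : Module (PS n) V]
  basis : Basis Idx (PS n) V
  act : Hᵐᵒᵖ →+* Module.End (PS n) V
  act_scalar : ∀ (a : A) (x : V), act (op (algebraMap A H a)) x = (con a : PS n) • x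

attribute [instance] MatRep.grp MatRep.mod

variable {H : Type} [Ring H] [Algebra A H]

/-- the right action `x · h` -/
noncomputable def MatRep.mulR (π : MatRep H) (x : π.V) (h : H) : π.V := π.act (op h) x

/-- the coefficient of the basis element `b` in `x` -/
noncomputable def MatRep.crd (π : MatRep H) (x : π.V) (b : π.Idx) : PS π.n := π.basis.repr x b

/-- The matrix entry `[π(h)]_{a,b}`: the coefficient of `b` in `a · h`. -/
noncomputable def MatRep.entry (π : MatRep H) (h : H) (a b : π.Idx) : PS π.n :=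
  π.crd (π.mulR (π.basis a) h) b

/-- `x ∈ S^{≤ 0}`: all coefficients are in `ℤ[q⁻¹]`. -/
def InNonpos {n : ℕ} (x : PS n) : Prop := ∀ (m : Fin n →₀ ℕ) (k : ℤ), 0 < k → cf x m k = 0

/-- the specialisation `x ↦ x|_{q⁻¹ = 0}` of `x ∈ S^{≤ 0}`, an element of `ℤ[ζ_1, …, ζ_n]`
recorded by its coefficients -/
noncomputable def spec {n : ℕ} (x : PS n) : (Fin n →₀ ℕ) → ℤ := fun m => cf x m 0

end rep

section balanced

variable {B : Type} {M : CoxeterMatrix B} {W : Type} [Group W] {cs : CoxeterSystem M W}
variable {L : W → ℕ} (D : HeckeData cs L)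

/-- `q^{-a} [π(C_w)]_{u,t}` -/
noncomputable def scaled (π : MatRep D.H) (a : ℕ) (w : W) (u t : π.Idx) : PS π.n :=
  con (v (-(a : ℤ))) * π.entry (D.C w) u t

/-- `q^{-a} [π(C_w)]_{u,t} ∈ S^{≤ 0}` for all `u, t, w`. -/
def BoundedBy (π : MatRep D.H) (a : ℕ) : Prop := ∀ w u t, InNonpos (scaled D π a w u t)

/-- the leading matrix `𝔠_{π,w} = (q^{-a} π(C_w))|_{q⁻¹ = 0}` -/
noncomputable def lead (π : MatRep D.H) (a : ℕ) (w : W) :
    π.Idx → π.Idx → (Fin π.n →₀ ℕ) → ℤ := fun u t => spec (scaled D π a w u t)

/-- (B1)-(B4) for the representation `π` attached to the cell `Γ`, with `a = a_π` -/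
structure IsCellRep (Γ : Set W) (π : MatRep D.H) (a : ℕ) : Prop where
  b1 : ∀ w, (¬ ∃ g ∈ Γ, LRLe D g w) → ∀ x, π.mulR x (D.C w) = 0
  b2 : IsLeast {n : ℕ | BoundedBy D π n} a
  b3 : ∀ w, lead D π a w ≠ 0 ↔ w ∈ Γ
  b4 : LinearIndependent ℤ (fun w : Γ => lead D π a w)

/-- `(π_Γ)` is a balanced system of cell representations, with bounds `a_{π_Γ} = a Γ`. -/
structure IsBalanced (π : Set W → MatRep D.H) (a : Set W → ℕ) : Prop where
  b14 : ∀ Γ, IsCell D Γ → IsCellRep D Γ (π Γ) (a Γ)
  b5 : ∀ Γ Γ', IsCell D Γ → IsCell D Γ' → (∃ x ∈ Γ', ∃ y ∈ Γ, LRLe D x y) → a Γ ≤ a Γ'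

end balanced

end Pool.Agent.W2helper31.BS
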