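import Pool.Agent.W2helper31.BS.Defs
import Pool.Agent.Helper703.KL.Exist1

set_option autoImplicit false
set_option linter.unusedSectionVars false

/-! Existence of the Hecke algebra with unequal parameters. -/

namespace Pool.Agent.W2helper31.BS

open LaurentPolynomial Module Pool.Agent.Helper703.KL

variable {B : Type} {M : CoxeterMatrix B} {W : Type} [Group W] (cs : CoxeterSystem M W)
variable (L : W → ℕ)

open Classical in
/-- left operators -/
noncomputable def wLo (i : B) : (W →₀ A) →ₗ[A] (W →₀ A) :=
  Finsupp.linearCombination A (fun w => if cs.length w < cs.length (cs.simple i * w) then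
    Finsupp.single (cs.simple i * w) (1 : A)
    else Finsupp.single (cs.simple i * w) 1 + par cs L i • Finsupp.single w 1)

open Classical in
/-- right operators -/
noncomputable def wRo (i : B) : (W →₀ A) →ₗ[A] (W →₀ A) :=
  Finsupp.linearCombination A (fun w => if cs.length w < cs.length (w * cs.simple i) then
    Finsupp.single (w * cs.simple i) (1 : A)
    else Finsupp.single (w * cs.simple i) 1 + par cs L i • Finsupp.single w 1)

variable {cs L}

lemma wLo_lt {i : B} {w : W} (h : cs.length w < cs.length (cs.simple i * w)) :
    wLo cs L i (Finsupp.single w 1) = Finsupp.single (cs.simple i * w) 1 := by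
  rw [wLo, Finsupp.linearCombination_single, one_smul, if_pos h]

lemma wLo_gt {i : B} {w : W} (h : cs.length (cs.simple i * w) < cs.length w) :
    wLo cs L i (Finsupp.single w 1) =
      Finsupp.single (cs.simple i * w) 1 + par cs L i • Finsupp.single w 1 := by
  rw [wLo, Finsupp.linearCombination_single, one_smul, if_neg (by omega)]

lemma wRo_lt {i : B} {w : W} (h : cs.length w < cs.length (w * cs.simple i)) :
    wRo cs L i (Finsupp.single w 1) = Finsupp.single (w * cs.simple i) 1 := by
  rw [wRo, Finsupp.linearCombination_single, one_smul, if_pos h]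

lemma wRo_gt {i : B} {w : W} (h : cs.length (w * cs.simple i) < cs.length w) :
    wRo cs L i (Finsupp.single w 1) =
      Finsupp.single (w * cs.simple i) 1 + par cs L i • Finsupp.single w 1 := by
  rw [wRo, Finsupp.linearCombination_single, one_smul, if_neg (by omega)]

lemma weight_eq (hL : IsWeight cs L) {i j : B} {w : W}
    (e : cs.simple i * w = w * cs.simple j) (h : cs.length w < cs.length (cs.simple i * w)) :
    L (cs.simple i) = L (cs.simple j) := by
  have h1 : cs.length (cs.simple i * w) = cs.length w + 1 := by
    rcases cs.length_simple_mul w i with h2 | h2 <;> omega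
  have h3 := hL.add (cs.simple i) w (by rw [cs.length_simple]; omega)
  have h4 := hL.add w (cs.simple j) (by rw [cs.length_simple, ← e]; omega)
  rw [← e] at h4
  omega

lemma par_eq (hL : IsWeight cs L) {i j : B} {w : W}
    (e : cs.simple i * w = w * cs.simple j) : par cs L i = par cs L j := by
  have h : L (cs.simple i) = L (cs.simple j) := by
    rcases lt_or_gt_of_ne (len_ne (cs := cs) i w) with h | h
    · have e2 : cs.simple i * (cs.simple i * w) = (cs.simple i * w) * cs.simple j := by
        rw [simple_simple, e, cs.simple_mul_simple_cancel_right]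
      exact weight_eq hL e2 (by rw [simple_simple]; exact h)
    · exact weight_eq hL e h
  rw [par, par, h]

lemma wLo_wRo_single (hL : IsWeight cs L) (i j : B) (w : W) :
    wLo cs L i (wRo cs L j (Finsupp.single w 1)) = wRo cs L j (wLo cs L i (Finsupp.single w 1)) := by
  have a := cs.length_simple_mul w i
  have b := cs.length_mul_simple w j
  have c := cs.length_mul_simple (cs.simple i * w) j
  have d := cs.length_simple_mul (w * cs.simple j) i
  rw [← mul_assoc] at d
  have key : cs.length (cs.simple i * w * cs.simple j) = cs.length w →
      (cs.length w < cs.length (cs.simple i * w) ∧ cs.length w < cs.length (w * cs.simple j)) ∨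
      (cs.length (cs.simple i * w) < cs.length w ∧ cs.length (w * cs.simple j) < cs.length w) →
      cs.simple i * w = w * cs.simple j := by
    intro h3 h
    rcases h with ⟨h1, h2⟩ | ⟨h1, h2⟩
    · exact exchange_eq cs i j w h1 h2 h3
    · have h4 := exchange_eq cs i j (cs.simple i * w) (by rw [simple_simple]; exact h1)
        (by omega) (by rw [simple_simple]; omega)
      rw [simple_simple] at h4
      conv_rhs => rw [h4]
      rw [cs.simple_mul_simple_cancel_right]
  rcases a with a | a
  · rcases b with b | b
    · rw [wRo_lt (by omega), wLo_lt (w := w) (by omega)]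
      rcases c with c | c
      · rw [wLo_lt (by rw [← mul_assoc]; omega), wRo_lt (by omega), mul_assoc]
      · have e := key (by omega) (Or.inl ⟨by omega, by omega⟩)
        rw [wLo_gt (by rw [← mul_assoc]; omega), wRo_gt (by omega), e, ← mul_assoc, e,
          par_eq hL e]
    · rw [wRo_gt (by omega), wLo_lt (w := w) (by omega), map_add, map_smul,
        wLo_lt (w := w) (by omega), wLo_lt (w := w * cs.simple j) (by rw [← mul_assoc]; omega),
        wRo_gt (by omega), mul_assoc]
  · rcases b with b | b
    · rw [wRo_lt (by omega), wLo_gt (w := w) (by omega), map_add, map_smul,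
        wRo_lt (w := w) (by omega), wRo_lt (w := cs.simple i * w) (by omega),
        wLo_gt (by rw [← mul_assoc]; omega), mul_assoc]
    · rw [wRo_gt (w := w) (by omega), wLo_gt (w := w) (by omega), map_add, map_smul,
        map_add, map_smul, wRo_gt (w := w) (by omega), wLo_gt (w := w) (by omega)]
      rcases c with c | c
      · have e := key (by omega) (Or.inr ⟨by omega, by omega⟩)
        rw [wLo_lt (w := w * cs.simple j) (by rw [← mul_assoc]; omega),
          wRo_lt (w := cs.simple i * w) (by omega), e, ← mul_assoc, e, par_eq hL e]
      · rw [wLo_gt (w := w * cs.simple j) (by rw [← mul_assoc]; omega),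
          wRo_gt (w := cs.simple i * w) (by omega), ← mul_assoc]
        module

lemma wLo_wRo (hL : IsWeight cs L) (i j : B) : wLo cs L i * wRo cs L j = wRo cs L j * wLo cs L i := by
  apply Finsupp.lhom_ext'
  intro w
  apply LinearMap.ext_ring
  exact wLo_wRo_single hL i j w

variable (cs L) in
/-- the Hecke algebra -/
noncomputable def wHA : Subalgebra A (EA W) :=
  Algebra.adjoin A (Set.range (fun i => EA.of (wLo cs L i)))

lemma wHA_comm (hL : IsWeight cs L) (h : wHA cs L) (j : B) (x : W →₀ A) :
    (h : EA W).toEnd (wRo cs L j x) = wRo cs L j ((h : EA W).toEnd x) := by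
  obtain ⟨h, hh⟩ := h
  have : Commute h (EA.of (wRo cs L j)) := by
    induction hh using Algebra.adjoin_induction with
    | mem x hx =>
      obtain ⟨i, rfl⟩ := hx
      exact wLo_wRo hL i j
    | algebraMap r => exact Algebra.commutes r _
    | add x y _ _ hx hy => exact hx.add_left hy
    | mul x y _ _ hx hy => exact hx.mul_left hy
  exact LinearMap.congr_fun this x

variable (cs L) in
/-- the Hecke algebra as a type -/
def WHT : Type := ↥(wHA cs L)

noncomputable instance : Ring (WHT cs L) := inferInstanceAs (Ring (wHA cs L))
noncomputable instance : Algebra A (WHT cs L) := inferInstanceAs (Algebra A (wHA cs L))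

/-- the underlying operator -/
noncomputable def WHT.op (h : WHT cs L) : Module.End A (W →₀ A) :=
  EA.toEnd (show wHA cs L from h).1

variable (cs L) in
/-- evaluation at the unit element -/
noncomputable def wev : WHT cs L →ₗ[A] (W →₀ A) where
  toFun h := h.op (Finsupp.single 1 1)
  map_add' _ _ := rfl
  map_smul' _ _ := rfl

lemma wev_injective (hL : IsWeight cs L) : Function.Injective (wev cs L) := by
  rw [injective_iff_map_eq_zero]
  intro h hh
  have key : ∀ n, ∀ w : W, cs.length w = n → h.op (Finsupp.single w 1) = 0 := by
    intro n
    induction n with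
    | zero =>
      intro w hw
      rw [cs.length_eq_zero_iff] at hw
      subst hw
      exact hh
    | succ n ih =>
      intro w hw
      have hw1 : w ≠ 1 := by
        rintro rfl
        rw [cs.length_one] at hw
        omega
      obtain ⟨j, hj⟩ := cs.exists_rightDescent_of_ne_one hw1
      have hj' : cs.length (w * cs.simple j) + 1 = cs.length w := cs.isRightDescent_iff.1 hj
      have e : (Finsupp.single w (1 : A)) = wRo cs L j (Finsupp.single (w * cs.simple j) 1) := by
        rw [wRo_lt (by rw [cs.simple_mul_simple_cancel_right]; omega),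
          cs.simple_mul_simple_cancel_right]
      have e2 := wHA_comm (cs := cs) hL h j (Finsupp.single (w * cs.simple j) 1)
      rw [e]
      refine e2.trans ?_
      have e3 := ih (w * cs.simple j) (by omega)
      unfold WHT.op at e3
      rw [e3, map_zero]
  apply Subtype.ext
  apply Finsupp.lhom_ext'
  intro w
  apply LinearMap.ext_ring
  exact key _ w rfl

variable (cs L) in
/-- generator of the Hecke algebra -/
noncomputable def wgen (i : B) : WHT cs L :=
  show wHA cs L from ⟨wLo cs L i, Algebra.subset_adjoin ⟨i, rfl⟩⟩

lemma wev_gen_mul (i : B) (h : WHT cs L) : wev cs L (wgen cs L i * h) = wLo cs L i (wev cs L h) :=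
  rfl

lemma wev_one : wev cs L 1 = Finsupp.single 1 1 := rfl

lemma wev_gen (i : B) : wev cs L (wgen cs L i) = Finsupp.single (cs.simple i) 1 := by
  have h1 : cs.length (1 : W) < cs.length (cs.simple i * 1) := by
    rw [mul_one, cs.length_one, cs.length_simple]; omega
  show wLo cs L i (Finsupp.single 1 1) = _
  rw [wLo_lt h1, mul_one]

lemma wev_mul_gen (hL : IsWeight cs L) (i : B) (h : WHT cs L) :
    wev cs L (h * wgen cs L i) = wRo cs L i (wev cs L h) := by
  have h1 : cs.length (1 : W) < cs.length (1 * cs.simple i) := by
    rw [one_mul, cs.length_one, cs.length_simple]; omega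
  have h2 : wev cs L (h * wgen cs L i) = h.op (wev cs L (wgen cs L i)) := rfl
  have h3 : wev cs L (wgen cs L i) = wRo cs L i (Finsupp.single 1 1) := by
    rw [wev_gen, wRo_lt h1, one_mul]
  rw [h2, h3]
  exact wHA_comm hL h i (Finsupp.single 1 1)

lemma wev_surjective : Function.Surjective (wev cs L) := by
  rw [← LinearMap.range_eq_top, eq_top_iff]
  have key : ∀ n, ∀ w : W, cs.length w = n →
      (Finsupp.single w (1 : A)) ∈ LinearMap.range (wev cs L) := by
    intro n
    induction n with
    | zero =>
      intro w hw
      rw [cs.length_eq_zero_iff] at hw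
      subst hw
      exact ⟨1, wev_one⟩
    | succ n ih =>
      intro w hw
      have hw1 : w ≠ 1 := by
        rintro rfl
        rw [cs.length_one] at hw
        omega
      obtain ⟨j, hj⟩ := cs.exists_leftDescent_of_ne_one hw1
      have hj' : cs.length (cs.simple j * w) + 1 = cs.length w := cs.isLeftDescent_iff.1 hj
      obtain ⟨h, hh⟩ := ih (cs.simple j * w) (by omega)
      refine ⟨wgen cs L j * h, ?_⟩
      rw [wev_gen_mul, hh, wLo_lt (by rw [simple_simple]; omega), simple_simple]
  intro x _
  rw [← Finsupp.sum_single x, Finsupp.sum]
  apply Submodule.sum_mem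
  intro w _
  have : Finsupp.single w (x w) = x w • Finsupp.single w (1 : A) := by
    rw [Finsupp.smul_single, smul_eq_mul, mul_one]
  rw [this]
  exact Submodule.smul_mem _ _ (key _ w rfl)

/-- the standard basis -/
noncomputable def wTB (hL : IsWeight cs L) : Basis W A (WHT cs L) :=
  Basis.ofRepr (LinearEquiv.ofBijective (wev cs L) ⟨wev_injective hL, wev_surjective⟩)

lemma wev_TB (hL : IsWeight cs L) (w : W) : wev cs L (wTB hL w) = Finsupp.single w 1 := by
  have : (wTB hL).repr (wTB hL w) = Finsupp.single w 1 := Basis.repr_self _ _
  exact this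

lemma wTB_simple (hL : IsWeight cs L) (i : B) : wTB hL (cs.simple i) = wgen cs L i := by
  apply wev_injective hL
  rw [wev_TB, wev_gen]

theorem wTB_isHk (hL : IsWeight cs L) : IsHk cs L (wTB hL) where
  one := by
    apply wev_injective hL
    rw [wev_TB, wev_one]
  up := by
    intro w i h
    apply wev_injective hL
    rw [wTB_simple, wev_mul_gen hL, wev_TB, wev_TB, wRo_lt h]
  down := by
    intro w i h
    apply wev_injective hL
    rw [wTB_simple, wev_mul_gen hL, map_add, map_smul, wev_TB, wev_TB, wRo_gt h]

end Pool.Agent.W2helper31.BS
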