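import Pool.Agent.W2helper31.BS.ExA
import Pool.Agent.Helper703.KL.Exist2

set_option autoImplicit false
set_option linter.unusedSectionVars false

/-! Existence of the bar involution with unequal parameters. -/

namespace Pool.Agent.W2helper31.BS

open LaurentPolynomial Module Pool.Agent.Helper703.KL

variable {B : Type} {M : CoxeterMatrix B} {W : Type} [Group W] {cs : CoxeterSystem M W}
variable {L : W → ℕ}
variable {H : Type} [Ring H] [Algebra A H] {T : Basis W A H}

lemma invert_par (i : B) : (invert (par cs L i) : A) = -par cs L i := by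
  rw [par, map_sub, invert_T, invert_T, neg_neg, neg_sub]

lemma IsHk.left_up (hT : IsHk cs L T) (n : ℕ) : ∀ (u : W), cs.length u = n → ∀ i : B,
    cs.length u < cs.length (cs.simple i * u) →
    T (cs.simple i) * T u = T (cs.simple i * u) := by
  induction n with
  | zero =>
    intro u hu i _
    rw [cs.length_eq_zero_iff] at hu
    subst hu
    rw [hT.one, mul_one, mul_one]
  | succ n ih =>
    intro u hu i h
    have hu1 : u ≠ 1 := by
      rintro rfl
      rw [cs.length_one] at hu
      omega
    obtain ⟨j, hj⟩ := cs.exists_rightDescent_of_ne_one hu1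
    have hj' : cs.length (u * cs.simple j) + 1 = cs.length u := cs.isRightDescent_iff.1 hj
    set w := u * cs.simple j with hw
    have huw : u = w * cs.simple j := by rw [hw, cs.simple_mul_simple_cancel_right]
    have h1 : T w * T (cs.simple j) = T u := by
      rw [hT.up w j (by rw [← huw]; omega), ← huw]
    have h2 : cs.length (cs.simple i * u) = cs.length u + 1 := by
      rcases cs.length_simple_mul u i with h3 | h3 <;> omega
    have h3 : cs.length (cs.simple i * w) = cs.length w + 1 := by
      rcases cs.length_simple_mul w i with h4 | h4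
      · exact h4
      · have h5 : cs.length (cs.simple i * u) ≤ cs.length (cs.simple i * w) + 1 := by
          rw [huw, ← mul_assoc]
          rcases cs.length_mul_simple (cs.simple i * w) j with h6 | h6 <;> omega
        omega
    have h4 := ih w (by omega) i (by omega)
    rw [← h1, ← mul_assoc, h4, hT.up (cs.simple i * w) j ?_, mul_assoc, ← huw]
    rw [mul_assoc, ← huw]
    omega

lemma IsHk.sq (hT : IsHk cs L T) (i : B) :
    T (cs.simple i) * T (cs.simple i) = 1 + par cs L i • T (cs.simple i) := by
  rw [hT.down _ i (by rw [cs.simple_mul_simple_self, cs.length_one, cs.length_simple]; omega),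
    cs.simple_mul_simple_self, hT.one]

lemma IsHk.left_down (hT : IsHk cs L T) (i : B) (w : W)
    (h : cs.length (cs.simple i * w) < cs.length w) :
    T (cs.simple i) * T w = T (cs.simple i * w) + par cs L i • T w := by
  have h1 : T (cs.simple i) * T (cs.simple i * w) = T w := by
    rw [hT.left_up _ _ rfl i (by rw [simple_simple]; exact h), simple_simple]
  conv_lhs => rw [← h1]
  rw [← mul_assoc, hT.sq, add_mul, one_mul, smul_mul_assoc, h1]

lemma IsHk.gen_inv (hT : IsHk cs L T) (i : B) :
    T (cs.simple i) * (T (cs.simple i) - par cs L i • (1 : H)) = 1 := by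
  rw [mul_sub, mul_smul_comm, hT.sq, mul_one, add_sub_cancel_right]

lemma IsHk.gen_inv' (hT : IsHk cs L T) (i : B) :
    (T (cs.simple i) - par cs L i • (1 : H)) * T (cs.simple i) = 1 := by
  rw [sub_mul, smul_mul_assoc, hT.sq, one_mul, add_sub_cancel_right]

/-- the unit given by a generator -/
noncomputable def IsHk.gu (hT : IsHk cs L T) (i : B) : Hˣ where
  val := T (cs.simple i)
  inv := T (cs.simple i) - par cs L i • (1 : H)
  val_inv := hT.gen_inv i
  inv_val := hT.gen_inv' i

lemma IsHk.isUnit (hT : IsHk cs L T) (n : ℕ) : ∀ w, cs.length w = n → IsUnit (T w) := by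
  induction n with
  | zero =>
    intro w hw
    rw [cs.length_eq_zero_iff] at hw
    subst hw
    rw [hT.one]
    exact isUnit_one
  | succ n ih =>
    intro w hw
    have hw1 : w ≠ 1 := by
      rintro rfl
      rw [cs.length_one] at hw
      omega
    obtain ⟨j, hj⟩ := cs.exists_leftDescent_of_ne_one hw1
    have hj' : cs.length (cs.simple j * w) + 1 = cs.length w := cs.isLeftDescent_iff.1 hj
    have h1 : T w = T (cs.simple j) * T (cs.simple j * w) := by
      rw [hT.left_up _ _ rfl j (by rw [simple_simple]; omega), simple_simple]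
    rw [h1]
    exact (hT.gu j).isUnit.mul (ih _ (by omega))

/-- `T w` as a unit -/
noncomputable def IsHk.u (hT : IsHk cs L T) (w : W) : Hˣ := (hT.isUnit _ w rfl).unit

lemma IsHk.u_val (hT : IsHk cs L T) (w : W) : (hT.u w : H) = T w := rfl

/-- the image of `T w` under the bar involution -/
noncomputable def IsHk.bT (hT : IsHk cs L T) (w : W) : H := ((hT.u w⁻¹)⁻¹ : Hˣ)

lemma IsHk.bT_one (hT : IsHk cs L T) : hT.bT 1 = 1 := by
  have : hT.u 1⁻¹ = 1 := by
    apply Units.ext
    rw [hT.u_val, inv_one, hT.one]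
    rfl
  rw [IsHk.bT, this, inv_one]
  rfl

lemma IsHk.bT_lt (hT : IsHk cs L T) (i : B) (w : W)
    (h : cs.length w < cs.length (cs.simple i * w)) :
    hT.bT (cs.simple i * w) = hT.bT (cs.simple i) * hT.bT w := by
  have h1 : hT.u (cs.simple i * w)⁻¹ = hT.u w⁻¹ * hT.u (cs.simple i)⁻¹ := by
    apply Units.ext
    rw [Units.val_mul, hT.u_val, hT.u_val, hT.u_val, mul_inv_rev, cs.inv_simple]
    refine (hT.up w⁻¹ i ?_).symm
    rw [← length_simple_mul_inv, cs.length_inv]
    exact h
  rw [IsHk.bT, h1, mul_inv_rev]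
  rfl

lemma IsHk.bT_mul_T (hT : IsHk cs L T) (i : B) : hT.bT (cs.simple i) * T (cs.simple i) = 1 := by
  have : hT.u (cs.simple i)⁻¹ = hT.u (cs.simple i) := by rw [cs.inv_simple]
  rw [IsHk.bT, this, ← hT.u_val]
  exact Units.inv_mul _

lemma IsHk.T_mul_bT (hT : IsHk cs L T) (i : B) : T (cs.simple i) * hT.bT (cs.simple i) = 1 := by
  have : hT.u (cs.simple i)⁻¹ = hT.u (cs.simple i) := by rw [cs.inv_simple]
  rw [IsHk.bT, this, ← hT.u_val]
  exact Units.mul_inv _

lemma IsHk.bT_simple (hT : IsHk cs L T) (i : B) :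
    hT.bT (cs.simple i) = T (cs.simple i) - par cs L i • (1 : H) := by
  calc hT.bT (cs.simple i) = hT.bT (cs.simple i) *
        (T (cs.simple i) * (T (cs.simple i) - par cs L i • (1 : H))) := by
          rw [hT.gen_inv, mul_one]
    _ = T (cs.simple i) - par cs L i • (1 : H) := by
          rw [← mul_assoc, hT.bT_mul_T, one_mul]

lemma IsHk.bT_sq (hT : IsHk cs L T) (i : B) :
    hT.bT (cs.simple i) * hT.bT (cs.simple i) = 1 - par cs L i • hT.bT (cs.simple i) := by
  have h1 := hT.bT_simple i
  conv_lhs =>
    congr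
    · rw [h1]
  rw [sub_mul, hT.T_mul_bT, smul_mul_assoc, one_mul]

lemma IsHk.bT_gt (hT : IsHk cs L T) (i : B) (w : W)
    (h : cs.length (cs.simple i * w) < cs.length w) :
    hT.bT (cs.simple i) * hT.bT w = hT.bT (cs.simple i * w) - par cs L i • hT.bT w := by
  set u := cs.simple i * w with hu
  have hw : w = cs.simple i * u := by rw [hu, simple_simple]
  have h1 : hT.bT w = hT.bT (cs.simple i) * hT.bT u := by
    rw [hw]
    exact hT.bT_lt i u (by rw [← hw]; exact h)
  rw [h1, ← mul_assoc, hT.bT_sq, sub_mul, smul_mul_assoc, one_mul]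

/-- the bar map as an additive map -/
noncomputable def IsHk.barA (hT : IsHk cs L T) : H →+ H :=
  (Finsupp.liftAddHom (fun w => ((AddMonoidHom.flip (smulAddHom A H)) (hT.bT w)).comp
    ((invert : A ≃ₐ[ℤ] A) : A →+ A))).comp
    (T.repr.toLinearMap.toAddMonoidHom)

lemma IsHk.barA_smul_T (hT : IsHk cs L T) (a : A) (w : W) :
    hT.barA (a • T w) = (invert a : A) • hT.bT w := by
  rw [IsHk.barA, AddMonoidHom.comp_apply]
  have : (T.repr.toLinearMap.toAddMonoidHom) (a • T w) = Finsupp.single w a := by
    show T.repr (a • T w) = _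
    rw [map_smul, Basis.repr_self, Finsupp.smul_single, smul_eq_mul, mul_one]
  rw [this, Finsupp.liftAddHom_apply_single]
  rfl

lemma IsHk.barA_T (hT : IsHk cs L T) (w : W) : hT.barA (T w) = hT.bT w := by
  have := hT.barA_smul_T 1 w
  rwa [one_smul, map_one, one_smul] at this

lemma IsHk.barA_smul (hT : IsHk cs L T) (a : A) (h : H) :
    hT.barA (a • h) = (invert a : A) • hT.barA h := by
  refine addHom_ext T (hT.barA.comp (DistribSMul.toAddMonoidHom H a))
    ((DistribSMul.toAddMonoidHom H (invert a : A)).comp hT.barA) ?_ h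
  intro b w
  show hT.barA (a • (b • T w)) = (invert a : A) • hT.barA (b • T w)
  rw [smul_smul, hT.barA_smul_T, hT.barA_smul_T, smul_smul, map_mul]

lemma IsHk.barA_gen_mul (hT : IsHk cs L T) (i : B) (h : H) :
    hT.barA (T (cs.simple i) * h) = hT.bT (cs.simple i) * hT.barA h := by
  refine addHom_ext T (hT.barA.comp (AddMonoidHom.mulLeft (T (cs.simple i))))
    ((AddMonoidHom.mulLeft (hT.bT (cs.simple i))).comp hT.barA) ?_ h
  intro b w
  show hT.barA (T (cs.simple i) * (b • T w)) = hT.bT (cs.simple i) * hT.barA (b • T w)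
  rw [mul_smul_comm, hT.barA_smul, hT.barA_smul, mul_smul_comm, hT.barA_T]
  congr 1
  rcases lt_or_gt_of_ne (len_ne (cs := cs) i w) with h | h
  · rw [hT.left_down i w h, map_add, hT.barA_smul, hT.barA_T, hT.barA_T,
      hT.bT_gt i w h, invert_par, neg_smul, sub_eq_add_neg]
  · rw [hT.left_up _ w rfl i h, hT.barA_T, hT.bT_lt i w h]

lemma IsHk.barA_T_mul (hT : IsHk cs L T) (n : ℕ) : ∀ w, cs.length w = n → ∀ h : H,
    hT.barA (T w * h) = hT.bT w * hT.barA h := by
  induction n with
  | zero =>
    intro w hw h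
    rw [cs.length_eq_zero_iff] at hw
    subst hw
    rw [hT.one, hT.bT_one, one_mul, one_mul]
  | succ n ih =>
    intro w hw h
    have hw1 : w ≠ 1 := by
      rintro rfl
      rw [cs.length_one] at hw
      omega
    obtain ⟨j, hj⟩ := cs.exists_leftDescent_of_ne_one hw1
    have hj' : cs.length (cs.simple j * w) + 1 = cs.length w := cs.isLeftDescent_iff.1 hj
    set u := cs.simple j * w with hu
    have hwu : w = cs.simple j * u := by rw [hu, simple_simple]
    have hlt : cs.length u < cs.length (cs.simple j * u) := by rw [← hwu]; omega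
    rw [hwu, ← hT.left_up _ u rfl j hlt, hT.bT_lt j u hlt, mul_assoc, hT.barA_gen_mul,
      ih u (by omega), mul_assoc]

lemma IsHk.barA_mul (hT : IsHk cs L T) (g h : H) :
    hT.barA (g * h) = hT.barA g * hT.barA h := by
  refine addHom_ext T (hT.barA.comp (AddMonoidHom.mulRight h))
    ((AddMonoidHom.mulRight (hT.barA h)).comp hT.barA) ?_ g
  intro b w
  show hT.barA (b • T w * h) = hT.barA (b • T w) * hT.barA h
  rw [smul_mul_assoc, hT.barA_smul, hT.barA_smul, smul_mul_assoc, hT.barA_T_mul _ w rfl,
    hT.barA_T]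

/-- the bar involution -/
noncomputable def IsHk.barR (hT : IsHk cs L T) : H →+* H where
  toFun := hT.barA
  map_one' := by
    rw [← hT.one, hT.barA_T, hT.bT_one, hT.one]
  map_mul' := hT.barA_mul
  map_zero' := map_zero _
  map_add' := map_add _

lemma IsHk.barR_apply (hT : IsHk cs L T) (h : H) : hT.barR h = hT.barA h := rfl

lemma IsHk.barR_scalar (hT : IsHk cs L T) (a : A) :
    hT.barR (algebraMap A H a) = algebraMap A H (invert a) := by
  rw [hT.barR_apply, Algebra.algebraMap_eq_smul_one, hT.barA_smul, Algebra.algebraMap_eq_smul_one]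
  congr 1
  exact map_one hT.barR

lemma IsHk.barR_gen (hT : IsHk cs L T) (i : B) :
    hT.barR (T (cs.simple i)) * T (cs.simple i) = 1 := by
  rw [hT.barR_apply, hT.barA_T]
  exact hT.bT_mul_T i

end Pool.Agent.W2helper31.BS
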