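import Pool.Agent.W2helper31.BS.Fold

set_option autoImplicit false
set_option linter.unusedSectionVars false
set_option linter.unusedSimpArgs false

/-! Finiteness of the number of directions of roots for affine Weyl groups. -/

namespace Pool.Agent.W2helper31.BS

open Pool.Agent.Helper703.Cox

variable {B : Type} {M : CoxeterMatrix B} [Fintype B] [DecidableEq B]
variable {W : Type} [Group W] (cs : CoxeterSystem M W)

variable (M) in
/-- the Tits form -/
noncomputable def tf (x y : B → ℝ) : ℝ := ∑ i, ∑ j, x i * y j * tits M i j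

lemma tits_eq (i j : B) : tits M i j = - cc M i j := rfl

lemma tits_symm (i j : B) : tits M i j = tits M j i := by
  rw [tits_eq, tits_eq, cc_symm]

lemma coroot_apply (i : B) (v : B → ℝ) : coroot M i v = 2 * ∑ j, v j * tits M i j := by
  simp only [coroot, LinearMap.sum_apply, LinearMap.smul_apply, LinearMap.proj_apply, smul_eq_mul,
    Finset.mul_sum]
  refine Finset.sum_congr rfl (fun j _ => ?_)
  rw [tits_eq]
  ring

lemma tf_ee (i : B) (y : B → ℝ) : tf M (ee i) y = coroot M i y / 2 := by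
  unfold tf
  rw [Finset.sum_eq_single i]
  · rw [coroot_apply]
    simp [ee]
  · intro j _ hj
    simp [ee, Pi.single_apply, hj]
  · simp

lemma tf_symm (x y : B → ℝ) : tf M x y = tf M y x := by
  unfold tf
  rw [Finset.sum_comm]
  refine Finset.sum_congr rfl (fun i _ => Finset.sum_congr rfl (fun j _ => ?_))
  rw [tits_symm]
  ring

lemma tf_add (x y z : B → ℝ) : tf M (x + y) z = tf M x z + tf M y z := by
  unfold tf
  rw [← Finset.sum_add_distrib]
  refine Finset.sum_congr rfl (fun i _ => ?_)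
  rw [← Finset.sum_add_distrib]
  refine Finset.sum_congr rfl (fun j _ => ?_)
  simp only [Pi.add_apply]
  ring

lemma tf_smul (a : ℝ) (x z : B → ℝ) : tf M (a • x) z = a * tf M x z := by
  unfold tf
  rw [Finset.mul_sum]
  refine Finset.sum_congr rfl (fun i _ => ?_)
  rw [Finset.mul_sum]
  refine Finset.sum_congr rfl (fun j _ => ?_)
  simp only [Pi.smul_apply, smul_eq_mul]
  ring

lemma tf_add' (x y z : B → ℝ) : tf M z (x + y) = tf M z x + tf M z y := by
  rw [tf_symm, tf_add, tf_symm x, tf_symm y]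

lemma tf_smul' (a : ℝ) (x z : B → ℝ) : tf M z (a • x) = a * tf M z x := by
  rw [tf_symm, tf_smul, tf_symm x]

lemma tf_sg (i : B) (x y : B → ℝ) : tf M (sg M i x) (sg M i y) = tf M x y := by
  have h1 : sg M i x = x + (-coroot M i x) • ee i := by rw [sg_apply, neg_smul, sub_eq_add_neg]
  have h2 : sg M i y = y + (-coroot M i y) • ee i := by rw [sg_apply, neg_smul, sub_eq_add_neg]
  have h3 : coroot M i (ee i) = 2 := by simp
  rw [h1, h2, tf_add, tf_add', tf_add', tf_smul, tf_smul', tf_smul, tf_smul', tf_ee, tf_ee,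
    tf_symm x (ee i), tf_ee, h3]
  ring

lemma tf_geo (w : W) (x y : B → ℝ) : tf M (geo cs w x) (geo cs w y) = tf M x y := by
  induction w using cs.simple_induction_left with
  | one => rw [map_one, Module.End.one_apply, Module.End.one_apply]
  | mul_simple_left w i ih =>
    rw [map_mul, Module.End.mul_apply, Module.End.mul_apply, geo_simple, tf_sg, ih]

variable {cs}

lemma coroot_le_two (h : ∀ x : B → ℝ, 0 ≤ tf M x x) {β : B → ℝ} (hβ : IsRoot cs β) (i : B) :
    |coroot M i β| ≤ 2 := by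
  obtain ⟨w, j, rfl⟩ := hβ
  set β := geo cs w (ee j) with hdef
  have h1 : tf M β β = 1 := by
    rw [hdef, tf_geo, tf_ee, coroot_ee, cc_self]
    norm_num
  set b := tf M (ee i) β with hb
  have h2 := h (β + (-b) • ee i)
  have h3 : tf M (ee i) (ee i) = 1 := by
    rw [tf_ee, coroot_ee, cc_self]
    norm_num
  rw [tf_add, tf_add', tf_add', tf_smul, tf_smul', tf_smul, tf_smul', tf_symm β (ee i), ← hb, h1,
    h3] at h2
  have h4 : b ^ 2 ≤ 1 := by nlinarith
  have h5 : |b| ≤ 1 := by
    rw [← sq_abs] at h4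
    nlinarith [abs_nonneg b]
  have h6 : coroot M i β = 2 * b := by
    rw [hb, tf_ee]
    ring
  rw [h6, abs_mul]
  simpa using h5

/-- the lattice spanned by the vectors `c i • e_i` -/
def Lat (c : B → ℝ) (x : B → ℝ) : Prop := ∀ i, ∃ n : ℤ, x i = n * c i

lemma lat_coroot {c : B → ℝ} (hc : ∀ i j, ∃ n : ℤ, 2 * tits M i j * c j = n * c i)
    {x : B → ℝ} (hx : Lat c x) (i : B) : ∃ n : ℤ, coroot M i x = n * c i := by
  choose m hm using hc i
  choose k hk using hx
  refine ⟨∑ j, k j * m j, ?_⟩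
  rw [coroot_apply, Finset.mul_sum]
  push_cast
  rw [Finset.sum_mul]
  refine Finset.sum_congr rfl (fun j _ => ?_)
  rw [hk j]
  have := hm j
  linear_combination (k j : ℝ) * this

lemma lat_sg {c : B → ℝ} (hc : ∀ i j, ∃ n : ℤ, 2 * tits M i j * c j = n * c i)
    {x : B → ℝ} (hx : Lat c x) (i : B) : Lat c (sg M i x) := by
  intro j
  obtain ⟨n, hn⟩ := lat_coroot hc hx i
  obtain ⟨k, hk⟩ := hx j
  by_cases hj : j = i
  · subst hj
    refine ⟨k - n, ?_⟩
    simp only [sg_apply, Pi.sub_apply, Pi.smul_apply, ee, Pi.single_eq_same, smul_eq_mul, mul_one,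
      hk, hn]
    push_cast
    ring
  · refine ⟨k, ?_⟩
    simp only [sg_apply, Pi.sub_apply, Pi.smul_apply, ee, Pi.single_apply, if_neg hj, smul_eq_mul,
      mul_zero, sub_zero, hk]

lemma lat_geo {c : B → ℝ} (hc : ∀ i j, ∃ n : ℤ, 2 * tits M i j * c j = n * c i)
    {x : B → ℝ} (hx : Lat c x) (w : W) : Lat c (geo cs w x) := by
  induction w using cs.simple_induction_left with
  | one => rw [map_one, Module.End.one_apply]; exact hx
  | mul_simple_left w i ih =>
    rw [map_mul, Module.End.mul_apply, geo_simple]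
    exact lat_sg hc ih i

theorem IsAffineWeyl.finDir (hM : IsAffineWeyl M) (cs : CoxeterSystem M W) : FinDir cs := by
  obtain ⟨hpsd, c, hc0, hc⟩ := hM
  set K : ℤ := ∑ j, ∑ i, ⌈2 * c j / c i⌉ with hK
  have hnn : ∀ i j, 0 ≤ 2 * c j / c i := fun i j =>
    div_nonneg (mul_nonneg (by norm_num) (hc0 j).le) (hc0 i).le
  have hKle : ∀ i j, ⌈2 * c j / c i⌉ ≤ K := by
    intro i j
    have h1 : ∀ i j, 0 ≤ ⌈2 * c j / c i⌉ := fun i j => Int.ceil_nonneg (hnn i j)
    calc ⌈2 * c j / c i⌉ ≤ ∑ i, ⌈2 * c j / c i⌉ :=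
          Finset.single_le_sum (f := fun i => ⌈2 * c j / c i⌉) (fun i _ => h1 i j)
            (Finset.mem_univ i)
      _ ≤ K := Finset.single_le_sum (f := fun j => ∑ i, ⌈2 * c j / c i⌉)
            (fun j _ => Finset.sum_nonneg (fun i _ => h1 i j)) (Finset.mem_univ j)
  have hfin : (Set.univ ×ˢ {n : B → ℤ | ∀ i, n i ∈ Set.Icc (-K) K} : Set (B × (B → ℤ))).Finite := by
    apply Set.finite_univ.prod
    have : {n : B → ℤ | ∀ i, n i ∈ Set.Icc (-K) K} = Set.pi Set.univ (fun _ => Set.Icc (-K) K) := by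
      ext n
      simp only [Set.mem_setOf_eq, Set.mem_univ_pi]
    rw [this]
    exact Set.Finite.pi (fun _ => Set.finite_Icc _ _)
  apply (hfin.image (fun p : B × (B → ℤ) => fun i => (p.2 i : ℝ) * c i / c p.1)).subset
  rintro _ ⟨⟨w, j⟩, rfl⟩
  have hl : Lat c (geo cs w (c j • ee j)) := by
    apply lat_geo hc
    intro i
    by_cases hi : i = j
    · subst hi
      exact ⟨1, by simp [ee]⟩
    · exact ⟨0, by simp [ee, Pi.single_apply, hi]⟩
  choose n hn using fun i => lat_coroot hc hl i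
  refine ⟨(j, n), ⟨Set.mem_univ _, ?_⟩, ?_⟩
  · intro i
    have h1 := coroot_le_two hpsd (cs := cs) (β := geo cs w (ee j)) ⟨w, j, rfl⟩ i
    have h2 := hn i
    rw [map_smul, map_smul, smul_eq_mul] at h2
    have h3 : (|(n i : ℝ)|) ≤ 2 * c j / c i := by
      rw [le_div_iff₀ (hc0 i)]
      have h4 : |(n i : ℝ) * c i| = |c j * coroot M i (geo cs w (ee j))| := by rw [h2]
      rw [abs_mul, abs_mul, abs_of_pos (hc0 i), abs_of_pos (hc0 j)] at h4
      rw [h4]
      nlinarith [hc0 j]
    have h5 : (|n i| : ℤ) ≤ ⌈2 * c j / c i⌉ := by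
      have h6 : ((|n i| : ℤ) : ℝ) ≤ (⌈2 * c j / c i⌉ : ℝ) := by
        push_cast
        exact h3.trans (Int.le_ceil _)
      exact_mod_cast h6
    have h7 := abs_le.1 (h5.trans (hKle i j))
    exact ⟨h7.1, h7.2⟩
  · funext i
    have h2 := hn i
    rw [map_smul, map_smul, smul_eq_mul] at h2
    simp only [dir]
    rw [← h2]
    field_simp [(hc0 j).ne']

end Pool.Agent.W2helper31.BS
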