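import Pool.Agent.W2helper31.BS.Acc
import Pool.Agent.Helper703.KL.Cox

set_option autoImplicit false
set_option linter.unusedSectionVars false

/-! Roots, directions, and the potential function bounding the number of folds. -/

namespace Pool.Agent.W2helper31.BS

open Pool.Agent.Helper703.Cox

variable {B : Type} {M : CoxeterMatrix B} [Fintype B] [DecidableEq B]
variable {W : Type} [Group W] (cs : CoxeterSystem M W)

/-- roots -/
def IsRoot (β : B → ℝ) : Prop := ∃ w i, β = geo cs w (ee i)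

variable {cs}

lemma IsRoot.dich {β : B → ℝ} (h : IsRoot cs β) : 0 ≤ β ∨ β ≤ 0 := by
  obtain ⟨w, i, rfl⟩ := h
  rcases cs.length_mul_simple w i with h | h
  · exact Or.inl (geo_nonneg cs w i (by omega))
  · exact Or.inr (geo_nonpos cs w i (by omega))

lemma IsRoot.ne_zero {β : B → ℝ} (h : IsRoot cs β) : β ≠ 0 := by
  obtain ⟨w, i, rfl⟩ := h
  exact geo_ee_ne_zero cs w i

lemma IsRoot.geo {β : B → ℝ} (h : IsRoot cs β) (w : W) : IsRoot cs (geo cs w β) := by
  obtain ⟨u, i, rfl⟩ := h
  exact ⟨w * u, i, by rw [map_mul, Module.End.mul_apply]⟩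

lemma IsRoot.sg {β : B → ℝ} (h : IsRoot cs β) (i : B) : IsRoot cs (sg M i β) := by
  have := h.geo (cs.simple i)
  rwa [geo_simple] at this

variable (M) in
/-- the direction of a vector -/
noncomputable def dir (β : B → ℝ) : B → ℝ := fun i => coroot M i β

variable (M) in
/-- action of a simple reflection on directions -/
noncomputable def sdir (s : B) (δ : B → ℝ) : B → ℝ := fun i => δ i - δ s * coroot M i (ee s)

lemma dir_sg (s : B) (β : B → ℝ) : dir M (sg M s β) = sdir M s (dir M β) := by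
  funext i
  simp only [dir, sdir, sg_apply, map_sub, map_smul, smul_eq_mul]

lemma sdir_sdir (s : B) (δ : B → ℝ) : sdir M s (sdir M s δ) = δ := by
  funext i
  have h : coroot M s (ee s) = 2 := by simp
  simp only [sdir, h]
  ring

lemma dir_sub_zero {β γ : B → ℝ} (h : dir M β = dir M γ) : ∀ i, coroot M i (β - γ) = 0 := by
  intro i
  rw [map_sub, sub_eq_zero]
  exact congrFun h i

lemma geo_fix {r : B → ℝ} (h : ∀ i, coroot M i r = 0) (w : W) : geo cs w r = r := by
  induction w using cs.simple_induction_left with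
  | one => rw [map_one, Module.End.one_apply]
  | mul_simple_left w i ih =>
    rw [map_mul, Module.End.mul_apply, ih, geo_simple, sg_apply, h i, zero_smul, sub_zero]

lemma geo_sub {β γ : B → ℝ} (h : dir M β = dir M γ) (w : W) :
    geo cs w β - geo cs w γ = β - γ := by
  rw [← map_sub]
  exact geo_fix (dir_sub_zero h) w

variable (cs) in
/-- positive roots made negative by `u⁻¹` and by `z` -/
def NN (z u : W) : Set (B → ℝ) :=
  {β | IsRoot cs β ∧ 0 ≤ β ∧ geo cs u⁻¹ β ≤ 0 ∧ geo cs z β ≤ 0}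

variable (cs) in
/-- directions of the roots in `NN` -/
noncomputable def DD (z u : W) : Set (B → ℝ) := dir M '' NN cs z u

lemma geo_inv_simple_mul (s : B) (u : W) (β : B → ℝ) :
    geo cs (cs.simple s * u)⁻¹ β = geo cs u⁻¹ (sg M s β) := by
  rw [mul_inv_rev, cs.inv_simple, map_mul, Module.End.mul_apply, geo_simple]

lemma geo_mul_simple (s : B) (z : W) (β : B → ℝ) :
    geo cs (z * cs.simple s) β = geo cs z (sg M s β) := by
  rw [map_mul, Module.End.mul_apply, geo_simple]

/-- a positive root different from a multiple of `e_s` stays positive under `s` -/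
lemma sg_nonneg {s : B} {u : W} {α : B → ℝ} (hu : 0 ≤ geo cs u⁻¹ (ee s)) (hr : IsRoot cs α)
    (h0 : 0 ≤ α) (h1 : geo cs u⁻¹ α ≤ 0) : 0 ≤ sg M s α := by
  rcases (hr.sg s).dich with h | h
  · exact h
  · exfalso
    have h2 : α = α s • ee s := by
      funext j
      by_cases hj : j = s
      · subst hj
        simp [ee]
      · have h3 := h j
        have h4 := h0 j
        simp only [sg_apply, Pi.sub_apply, Pi.smul_apply, ee, Pi.single_apply, if_neg hj,
          smul_eq_mul, mul_zero, sub_zero, Pi.zero_apply] at h3 h4 ⊢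
        exact le_antisymm h3 h4
    have h3 : 0 ≤ geo cs u⁻¹ α := by
      rw [h2, map_smul]
      exact smul_nonneg (h0 s) hu
    have h4 : geo cs u⁻¹ α = 0 := le_antisymm h1 h3
    exact (hr.geo u⁻¹).ne_zero h4

lemma key_step {s : B} {z u : W} (hu : 0 ≤ geo cs u⁻¹ (ee s)) {α : B → ℝ}
    (hα : α ∈ NN cs (z * cs.simple s) u) : sg M s α ∈ NN cs z (cs.simple s * u) := by
  obtain ⟨hr, h0, h1, h2⟩ := hα
  refine ⟨hr.sg s, sg_nonneg hu hr h0 h1, ?_, ?_⟩
  · rw [geo_inv_simple_mul, sg_sg]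
    exact h1
  · rw [← geo_mul_simple]
    exact h2

lemma key1 {s : B} {z u : W} (hu : 0 ≤ geo cs u⁻¹ (ee s)) (hz : geo cs z (ee s) ≤ 0)
    {α : B → ℝ} (hα : α ∈ NN cs z u) :
    α ∈ NN cs z (cs.simple s * u) ∨ sg M s α ∈ NN cs z (cs.simple s * u) := by
  obtain ⟨hr, h0, h1, h2⟩ := hα
  rcases le_total (coroot M s α) 0 with hc | hc
  · right
    refine ⟨hr.sg s, sg_nonneg hu hr h0 h1, ?_, ?_⟩
    · rw [geo_inv_simple_mul, sg_sg]
      exact h1
    · rw [sg_apply, map_sub, map_smul]
      have h3 : 0 ≤ coroot M s α • geo cs z (ee s) := smul_nonneg_of_nonpos_of_nonpos hc hz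
      exact sub_nonpos.2 (h2.trans h3)
  · left
    refine ⟨hr, h0, ?_, h2⟩
    rw [geo_inv_simple_mul, sg_apply, map_sub, map_smul]
    have h3 : 0 ≤ coroot M s α • geo cs u⁻¹ (ee s) := smul_nonneg hc hu
    exact sub_nonpos.2 (h1.trans h3)

lemma key2 {s : B} {z u : W} (hu : 0 ≤ geo cs u⁻¹ (ee s))
    {α α' : B → ℝ} (hα : α ∈ NN cs z u) (hα' : α' ∈ NN cs z u)
    (h : dir M α' = sdir M s (dir M α)) : dir M α ∈ DD cs z (cs.simple s * u) := by
  obtain ⟨hr, h0, h1, h2⟩ := hα
  obtain ⟨hr', h0', h1', h2'⟩ := hα'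
  have hd : dir M (sg M s α') = dir M α := by rw [dir_sg, h, sdir_sdir]
  have e1 : geo cs (cs.simple s * u)⁻¹ (sg M s α') ≤ 0 := by
    rw [geo_inv_simple_mul, sg_sg]
    exact h1'
  by_cases hA : geo cs (cs.simple s * u)⁻¹ α ≤ 0
  · exact ⟨α, ⟨hr, h0, hA, h2⟩, rfl⟩
  by_cases hB : geo cs z (sg M s α') ≤ 0
  · exact ⟨sg M s α', ⟨hr'.sg s, sg_nonneg hu hr' h0' h1', e1, hB⟩, hd⟩
  exfalso
  have hA' := (hr.geo (cs.simple s * u)⁻¹).dich.resolve_right hA
  have hB' := ((hr'.sg s).geo z).dich.resolve_right hB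
  have r1 := geo_sub (cs := cs) hd (cs.simple s * u)⁻¹
  have r2 := geo_sub (cs := cs) hd z
  have r3 : sg M s α' - α ≤ 0 := by
    rw [← r1]
    exact sub_nonpos.2 (e1.trans hA')
  have r4 : 0 ≤ sg M s α' - α := by
    rw [← r2]
    exact sub_nonneg.2 (h2.trans hB')
  have r5 : sg M s α' = α := sub_eq_zero.1 (le_antisymm r3 r4)
  apply hA
  rw [← r5]
  exact e1

lemma key3 {s : B} {z u : W} (hu : 0 ≤ geo cs u⁻¹ (ee s)) (hz : geo cs z (ee s) ≤ 0)
    {α : B → ℝ} (hα : α ∈ NN cs z u) :
    dir M α ≠ dir M (ee s) ∧ sdir M s (dir M α) ≠ dir M (ee s) := by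
  obtain ⟨hr, h0, h1, h2⟩ := hα
  constructor
  · intro hd
    have r1 := geo_sub (cs := cs) hd u⁻¹
    have r2 : α - ee s ≤ 0 := by
      rw [← r1]
      exact sub_nonpos.2 (h1.trans hu)
    have h3 : α = α s • ee s := by
      funext j
      by_cases hj : j = s
      · subst hj
        simp [ee]
      · have h3 := r2 j
        have h4 := h0 j
        simp only [Pi.sub_apply, Pi.smul_apply, ee, Pi.single_apply, if_neg hj,
          smul_eq_mul, mul_zero, sub_zero, Pi.zero_apply] at h3 h4 ⊢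
        exact le_antisymm h3 h4
    have h4 : 0 ≤ geo cs u⁻¹ α := by
      rw [h3, map_smul]
      exact smul_nonneg (h0 s) hu
    exact (hr.geo u⁻¹).ne_zero (le_antisymm h1 h4)
  · intro hd
    have hd' : dir M α = dir M (-ee s) := by
      rw [← sg_ee_self, dir_sg, ← hd, sdir_sdir]
    have r1 := geo_sub (cs := cs) hd' z
    rw [map_neg, sub_neg_eq_add, sub_neg_eq_add] at r1
    have r2 : α + ee s ≤ 0 := by
      rw [← r1]
      exact add_nonpos h2 hz
    have r3 : (0 : B → ℝ) ≤ α + ee s := add_nonneg h0 (ee_nonneg s)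
    have r4 : α + ee s = 0 := le_antisymm r2 r3
    have r5 := congrFun r4 s
    have r6 := h0 s
    simp only [Pi.add_apply, ee, Pi.single_eq_same, Pi.zero_apply] at r5 r6
    linarith

variable (cs) in
/-- the number of directions of roots is finite -/
def FinDir : Prop := (Set.range fun p : W × B => dir M (geo cs p.1 (ee p.2))).Finite

lemma FinDir.finite (hF : FinDir cs) (z u : W) : (DD cs z u).Finite := by
  apply hF.subset
  rintro _ ⟨β, ⟨⟨w, i, rfl⟩, _⟩, rfl⟩
  exact ⟨(w, i), rfl⟩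

/-- the potential function -/
noncomputable def pot (cs : CoxeterSystem M W) (z u : W) : ℕ := (DD cs z u).ncard

lemma FinDir.pot_le (hF : FinDir cs) (z u : W) :
    pot cs z u ≤ (Set.range fun p : W × B => dir M (geo cs p.1 (ee p.2))).ncard := by
  apply Set.ncard_le_ncard _ hF
  rintro _ ⟨β, ⟨⟨w, i, rfl⟩, _⟩, rfl⟩
  exact ⟨(w, i), rfl⟩

lemma asc_nonneg {s : B} {u : W} (h : cs.length u < cs.length (cs.simple s * u)) :
    0 ≤ geo cs u⁻¹ (ee s) := by
  apply geo_nonneg
  rw [cs.length_inv]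
  have : cs.length (u⁻¹ * cs.simple s) = cs.length (cs.simple s * u) := by
    rw [← cs.length_inv, mul_inv_rev, cs.inv_simple, inv_inv]
  rw [this]
  exact h

lemma pot_step (hF : FinDir cs) {s : B} {z u : W}
    (h : cs.length u < cs.length (cs.simple s * u)) :
    pot cs (z * cs.simple s) u ≤ pot cs z (cs.simple s * u) := by
  have hu := asc_nonneg h
  refine Set.ncard_le_ncard_of_injOn (sdir M s) ?_ ?_ (hF.finite _ _)
  · rintro _ ⟨α, hα, rfl⟩
    exact ⟨sg M s α, key_step hu hα, dir_sg s α⟩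
  · intro a _ b _ hab
    have := congrArg (sdir M s) hab
    simpa only [sdir_sdir] using this

lemma pot_fold (hF : FinDir cs) {s : B} {z u : W}
    (h : cs.length u < cs.length (cs.simple s * u)) (hz : cs.length (z * cs.simple s) < cs.length z) :
    pot cs z u + 1 ≤ pot cs z (cs.simple s * u) := by
  classical
  have hu := asc_nonneg h
  have hz' := geo_nonpos cs z s hz
  have hmem : dir M (ee s) ∈ DD cs z (cs.simple s * u) := by
    refine ⟨ee s, ⟨⟨1, s, by rw [map_one, Module.End.one_apply]⟩, ee_nonneg s, ?_, hz'⟩, rfl⟩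
    rw [geo_inv_simple_mul, sg_ee_self, map_neg]
    exact neg_nonpos.2 hu
  have h1 : (DD cs z u).ncard ≤ (DD cs z (cs.simple s * u) \ {dir M (ee s)}).ncard := by
    refine Set.ncard_le_ncard_of_injOn
      (fun δ => if δ ∈ DD cs z (cs.simple s * u) then δ else sdir M s δ) ?_ ?_
      ((hF.finite _ _).subset Set.sdiff_subset)
    · rintro _ ⟨α, hα, rfl⟩
      have k3 := key3 hu hz' hα
      split_ifs with hd
      · exact ⟨hd, k3.1⟩
      · rcases key1 hu hz' hα with k | k
        · exact absurd ⟨α, k, rfl⟩ hd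
        · refine ⟨⟨sg M s α, k, dir_sg s α⟩, k3.2⟩
    · rintro _ ⟨α, hα, rfl⟩ _ ⟨β, hβ, rfl⟩ hab
      dsimp only at hab
      split_ifs at hab with ha hb hb
      · exact hab
      · exfalso
        exact hb (key2 hu hβ hα hab)
      · exfalso
        exact ha (key2 hu hα hβ hab.symm)
      · have := congrArg (sdir M s) hab
        simpa only [sdir_sdir] using this
  have h2 := Set.ncard_sdiff_singleton_add_one hmem (hF.finite _ _)
  unfold pot
  omega

end Pool.Agent.W2helper31.BS
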