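import Pool.Agent.W2helper31.BS.FinDir
import Pool.Agent.Helper703.KL.Bruhat

set_option autoImplicit false
set_option linter.unusedSectionVars false

/-! Degrees of structure constants of Hecke algebras. -/

namespace Pool.Agent.W2helper31.BS

open LaurentPolynomial Module Pool.Agent.Helper703.KL Pool.Agent.Helper703.Cox

/-- all powers of `q` in `p` have exponent at most `N` -/
def DegLe (N : ℤ) (p : A) : Prop := ∀ n : ℤ, N < n → p.coeff n = 0

lemma DegLe.mono {N N' : ℤ} {p : A} (h : DegLe N p) (hN : N ≤ N') : DegLe N' p :=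
  fun n hn => h n (lt_of_le_of_lt hN hn)

lemma DegLe.zero (N : ℤ) : DegLe N 0 := fun n _ => coeff_zero n

lemma DegLe.add {N : ℤ} {p r : A} (hp : DegLe N p) (hr : DegLe N r) : DegLe N (p + r) :=
  fun n hn => by rw [coeff_add, hp n hn, hr n hn, add_zero]

lemma DegLe.sub {N : ℤ} {p r : A} (hp : DegLe N p) (hr : DegLe N r) : DegLe N (p - r) :=
  fun n hn => by rw [coeff_sub, hp n hn, hr n hn, sub_zero]

lemma DegLe.neg {N : ℤ} {p : A} (hp : DegLe N p) : DegLe N (-p) :=
  fun n hn => by rw [coeff_neg, hp n hn, neg_zero]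

lemma DegLe.sum {ι : Type*} {N : ℤ} (s : Finset ι) (f : ι → A) (h : ∀ i ∈ s, DegLe N (f i)) :
    DegLe N (∑ i ∈ s, f i) := fun n hn => by
  rw [coeff_sum]
  exact Finset.sum_eq_zero (fun i hi => h i hi n hn)

lemma DegLe.mul {a b : ℤ} {p r : A} (hp : DegLe a p) (hr : DegLe b r) : DegLe (a + b) (p * r) := by
  intro n hn
  rw [AddMonoidAlgebra.coeff_mul_apply_left, Finsupp.sum]
  refine Finset.sum_eq_zero (fun k _ => ?_)
  rcases le_or_gt k a with hk | hk
  · have : r.coeff (-k + n) = 0 := hr _ (by omega)
    rw [this, mul_zero]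
  · have : p.coeff k = 0 := hp _ hk
    rw [this, zero_mul]

lemma DegLe.v {m n : ℤ} (h : m ≤ n) : DegLe n (v m) := by
  intro k hk
  rw [T_apply, if_neg (by omega)]

lemma DegLe.one {n : ℤ} (h : 0 ≤ n) : DegLe n 1 := by
  rw [← T_zero]
  exact DegLe.v h

lemma DegLe.of_neg {p : A} (h : Neg p) : DegLe (-1) p := fun n hn => h n (by omega)

lemma DegLe.neg_of {p : A} {n : ℤ} (h : DegLe n p) (hn : n < 0) : Neg p :=
  fun k hk => h k (by omega)

section

variable {B : Type} {M : CoxeterMatrix B} {W : Type} [Group W] {cs : CoxeterSystem M W}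
variable {L : W → ℕ} (D : HeckeData cs L)

/-- all coordinates in the basis `b` have degree at most `N` -/
def DegB {H : Type} [AddCommGroup H] [Module A H] (b : Basis W A H) (N : ℤ) (h : H) : Prop :=
  ∀ y, DegLe N (b.repr h y)

section degb
variable {H : Type} [AddCommGroup H] [Module A H] {b : Basis W A H}

lemma DegB.mono {N N' : ℤ} {h : H} (hh : DegB b N h) (hN : N ≤ N') : DegB b N' h :=
  fun y => (hh y).mono hN

lemma DegB.zero (N : ℤ) : DegB b N 0 := fun y => by
  rw [map_zero, Finsupp.zero_apply]
  exact DegLe.zero N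

lemma DegB.add {N : ℤ} {h k : H} (hh : DegB b N h) (hk : DegB b N k) : DegB b N (h + k) :=
  fun y => by
    rw [map_add, Finsupp.add_apply]
    exact (hh y).add (hk y)

lemma DegB.sub {N : ℤ} {h k : H} (hh : DegB b N h) (hk : DegB b N k) : DegB b N (h - k) :=
  fun y => by
    rw [map_sub, Finsupp.sub_apply]
    exact (hh y).sub (hk y)

lemma DegB.smul {a N : ℤ} {p : A} {h : H} (hp : DegLe a p) (hh : DegB b N h) :
    DegB b (a + N) (p • h) := fun y => by
  rw [map_smul, Finsupp.smul_apply, smul_eq_mul]
  exact hp.mul (hh y)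

lemma DegB.sum {ι : Type*} {N : ℤ} (s : Finset ι) (f : ι → H) (h : ∀ i ∈ s, DegB b N (f i)) :
    DegB b N (∑ i ∈ s, f i) := by
  classical
  induction s using Finset.induction_on with
  | empty => rw [Finset.sum_empty]; exact DegB.zero N
  | insert a s ha ih =>
    rw [Finset.sum_insert ha]
    exact (h a (Finset.mem_insert_self _ _)).add
      (ih (fun i hi => h i (Finset.mem_insert_of_mem hi)))

lemma DegB.basis (w : W) {N : ℤ} (hN : 0 ≤ N) : DegB b N (b w) := fun y => by
  classical
  rw [Basis.repr_self, Finsupp.single_apply]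
  split_ifs
  · exact DegLe.one hN
  · exact DegLe.zero N

lemma expand (b : Basis W A H) (h : H) : h = ∑ z ∈ (b.repr h).support, b.repr h z • b z := by
  conv_lhs => rw [← b.linearCombination_repr h]
  rw [Finsupp.linearCombination_apply, Finsupp.sum]

end degb

variable {D}

lemma left_up (n : ℕ) : ∀ (u : W), cs.length u = n → ∀ i : B,
    cs.length u < cs.length (cs.simple i * u) →
    D.T (cs.simple i) * D.T u = D.T (cs.simple i * u) := by
  induction n with
  | zero =>
    intro u hu i _
    rw [cs.length_eq_zero_iff] at hu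
    subst hu
    rw [D.T_one, mul_one, mul_one]
  | succ n ih =>
    intro u hu i h
    have hu1 : u ≠ 1 := by
      rintro rfl
      rw [cs.length_one] at hu
      omega
    obtain ⟨j, hj⟩ := cs.exists_rightDescent_of_ne_one hu1
    have hj' : cs.length (u * cs.simple j) + 1 = cs.length u := cs.isRightDescent_iff.1 hj
    set w := u * cs.simple j with hw
    have huw : u = w * cs.simple j := by rw [hw, cs.simple_mul_simple_cancel_right]
    have h1 : D.T w * D.T (cs.simple j) = D.T u := by
      rw [D.T_up w j (by rw [← huw]; omega), ← huw]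
    have h2 : cs.length (cs.simple i * u) = cs.length u + 1 := by
      rcases cs.length_simple_mul u i with h3 | h3 <;> omega
    have h3 : cs.length (cs.simple i * w) = cs.length w + 1 := by
      rcases cs.length_simple_mul w i with h4 | h4
      · exact h4
      · have h5 : cs.length (cs.simple i * u) ≤ cs.length (cs.simple i * w) + 1 := by
          rw [huw, ← mul_assoc]
          rcases cs.length_mul_simple (cs.simple i * w) j with h6 | h6 <;> omega
        omega
    have h4 := ih w (by omega) i (by omega)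
    rw [← h1, ← mul_assoc, h4, D.T_up (cs.simple i * w) j ?_, mul_assoc, ← huw]
    rw [mul_assoc, ← huw]
    omega

lemma par_deg {K : ℕ} (i : B) (hK : L (cs.simple i) ≤ K) : DegLe (K : ℤ) (par cs L i) := by
  unfold par
  exact (DegLe.v (by exact_mod_cast hK)).sub (DegLe.v (by omega))

section fin
variable [Fintype B] [DecidableEq B]

lemma T_mul_deg (hF : FinDir cs) {K : ℕ} (hK : ∀ i, L (cs.simple i) ≤ K) (n : ℕ) :
    ∀ (u : W), cs.length u = n → ∀ z : W,
    DegB D.T ((K * pot cs z u : ℕ) : ℤ) (D.T z * D.T u) := by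
  induction n with
  | zero =>
    intro u hu z
    rw [cs.length_eq_zero_iff] at hu
    subst hu
    rw [D.T_one, mul_one]
    exact DegB.basis z (by positivity)
  | succ n ih =>
    intro u hu z
    have hu1 : u ≠ 1 := by
      rintro rfl
      rw [cs.length_one] at hu
      omega
    obtain ⟨i, hi⟩ := cs.exists_leftDescent_of_ne_one hu1
    have hi' : cs.length (cs.simple i * u) + 1 = cs.length u := cs.isLeftDescent_iff.1 hi
    set w := cs.simple i * u with hw
    have huw : u = cs.simple i * w := by rw [hw, simple_simple]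
    have hlt : cs.length w < cs.length (cs.simple i * w) := by rw [← huw]; omega
    have h1 : D.T u = D.T (cs.simple i) * D.T w := by
      rw [left_up _ w rfl i hlt, ← huw]
    have hs : K * pot cs (z * cs.simple i) w ≤ K * pot cs z u := by
      rw [huw]
      exact Nat.mul_le_mul_left K (pot_step hF hlt)
    rw [h1, ← mul_assoc]
    rcases cs.length_mul_simple z i with hz | hz
    · rw [D.T_up z i (by omega)]
      exact (ih w (by omega) (z * cs.simple i)).mono (by exact_mod_cast hs)
    · rw [D.T_down z i (by omega), add_mul, smul_mul_assoc]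
      refine ((ih w (by omega) (z * cs.simple i)).mono (by exact_mod_cast hs)).add ?_
      refine ((ih w (by omega) z).smul (par_deg i (hK i))).mono ?_
      have h2 := pot_fold hF hlt (z := z) (by omega)
      rw [← huw] at h2
      have h3 : K + K * pot cs z w ≤ K * pot cs z u := by
        calc K + K * pot cs z w = K * (pot cs z w + 1) := by ring
          _ ≤ K * pot cs z u := Nat.mul_le_mul_left K h2
      exact_mod_cast h3

lemma exists_T_bound (hF : FinDir cs) (D : HeckeData cs L) :
    ∃ N : ℕ, ∀ h k : D.H, DegB D.T 0 h → DegB D.T 0 k → DegB D.T N (h * k) := by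
  obtain ⟨K, hK⟩ : ∃ K : ℕ, ∀ i, L (cs.simple i) ≤ K :=
    ⟨∑ i, L (cs.simple i), fun i => Finset.single_le_sum (f := fun i => L (cs.simple i))
      (fun _ _ => Nat.zero_le _) (Finset.mem_univ i)⟩
  refine ⟨K * (Set.range fun p : W × B => dir M (geo cs p.1 (ee p.2))).ncard, ?_⟩
  intro h k hh hk
  rw [expand D.T h, expand D.T k, Finset.sum_mul]
  refine DegB.sum _ _ (fun z _ => ?_)
  rw [Finset.mul_sum]
  refine DegB.sum _ _ (fun u _ => ?_)
  rw [smul_mul_smul_comm]
  have h1 : DegLe 0 (D.T.repr h z * D.T.repr k u) := (hh z).mul (hk u)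
  refine ((T_mul_deg hF hK _ u rfl z).smul h1).mono ?_
  rw [zero_add]
  exact_mod_cast Nat.mul_le_mul_left K (hF.pot_le z u)

end fin

lemma C_degT (w : W) : DegB D.T 0 (D.C w) := by
  intro y
  by_cases h : y = w
  · rw [h, D.C_diag]
    exact DegLe.one le_rfl
  · exact (DegLe.of_neg (D.C_neg w y h)).mono (by norm_num)

lemma T_degC (n : ℕ) : ∀ w : W, cs.length w = n → DegB D.C 0 (D.T w) := by
  classical
  induction n using Nat.strong_induction_on with
  | _ n ih =>
    intro w hw
    have h1 := expand D.T (D.C w)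
    have hwS : w ∈ (D.T.repr (D.C w)).support := by
      rw [Finsupp.mem_support_iff, D.C_diag]
      exact one_ne_zero
    rw [← Finset.add_sum_erase _ _ hwS, D.C_diag, one_smul] at h1
    have h2 : D.T w = D.C w - ∑ z ∈ (D.T.repr (D.C w)).support.erase w,
        D.T.repr (D.C w) z • D.T z := by
      rw [eq_sub_iff_add_eq]
      exact h1.symm
    rw [h2]
    refine (DegB.basis w le_rfl).sub (DegB.sum _ _ (fun z hz => ?_))
    have hz1 : z ≠ w := Finset.ne_of_mem_erase hz
    have hz2 := Finsupp.mem_support_iff.1 (Finset.mem_of_mem_erase hz)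
    have hl : cs.length z < cs.length w := by
      rcases BLe.length (D.C_supp w z hz2) with h | h
      · exact absurd h hz1
      · exact h
    have h3 := (ih (cs.length z) (by omega) z rfl).smul (C_degT (D := D) w z)
    simpa using h3

lemma DegB.toC {N : ℤ} {h : D.H} (hh : DegB D.T N h) : DegB D.C N h := by
  rw [expand D.T h]
  refine DegB.sum _ _ (fun z _ => ?_)
  have h3 := (T_degC (D := D) _ z rfl).smul (hh z)
  simpa using h3

theorem exists_bound [Fintype B] [DecidableEq B] (hM : IsAffineWeyl M) (D : HeckeData cs L) :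
    ∃ N : ℕ, ∀ x y z : W, DegLe N (D.C.repr (D.C x * D.C y) z) := by
  obtain ⟨N, hN⟩ := exists_T_bound (hM.finDir cs) D
  exact ⟨N, fun x y z => (hN _ _ (C_degT x) (C_degT y)).toC z⟩

end

end Pool.Agent.W2helper31.BS
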