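import Pool.Agent.W2helper31.BS.Chi

set_option autoImplicit false
set_option linter.unusedSectionVars false

/-! The balanced system. -/

namespace Pool.Agent.W2helper31.BS

open LaurentPolynomial Module Pool.Agent.Helper703.KL MulOpposite

variable {B : Type} {M : CoxeterMatrix B} {W : Type} [Group W] {cs : CoxeterSystem M W}
variable {L : W → ℕ} (D : HeckeData cs L)

/-- powers of `q` as units -/
noncomputable def vu (n : ℤ) : Aˣ where
  val := v n
  inv := v (-n)
  val_inv := by rw [v_mul_v, add_neg_cancel]; exact T_zero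
  inv_val := by rw [v_mul_v, neg_add_cancel]; exact T_zero

open Classical in
/-- the exponents used to rescale the Kazhdan-Lusztig basis -/
noncomputable def ex (Γ : Set W) (K : ℤ) (w : W) : ℤ :=
  if w = 1 then K else if w ∈ Γ then -1 else 0

/-- the rescaled Kazhdan-Lusztig basis -/
noncomputable def Bs (Γ : Set W) (K : ℤ) : Basis W A D.H := D.C.unitsSMul (fun w => vu (ex Γ K w))

lemma Bs_apply (Γ : Set W) (K : ℤ) (w : W) : Bs D Γ K w = v (ex Γ K w) • D.C w := by
  rw [Bs, Basis.unitsSMul_apply]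
  rfl

lemma Bs_repr (Γ : Set W) (K : ℤ) (h : D.H) (w : W) :
    (Bs D Γ K).repr h w = v (-ex Γ K w) * D.C.repr h w := by
  rw [Bs, Basis.repr_unitsSMul]
  rfl

/-- the elements above the cell `Γ` -/
def Ge (Γ : Set W) : Type := {w : W // ∃ g ∈ Γ, LRLe D g w}

variable (Γ : Set W) (K : ℤ)

/-- projection -/
noncomputable def Pm : D.H →ₗ[A] ({w : W // ∃ g ∈ Γ, LRLe D g w} →₀ A) :=
  (Finsupp.lsubtypeDomain {w : W | ∃ g ∈ Γ, LRLe D g w}) ∘ₗ (Bs D Γ K).repr.toLinearMap

lemma Pm_apply (h : D.H) (t : {w : W // ∃ g ∈ Γ, LRLe D g w}) :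
    Pm D Γ K h t = (Bs D Γ K).repr h t.1 := rfl

/-- section -/
noncomputable def Qm : ({w : W // ∃ g ∈ Γ, LRLe D g w} →₀ A) →ₗ[A] D.H :=
  Finsupp.linearCombination A (fun x => Bs D Γ K x.1)

lemma Qm_single (u : {w : W // ∃ g ∈ Γ, LRLe D g w}) :
    Qm D Γ K (Finsupp.single u 1) = Bs D Γ K u.1 := by
  rw [Qm, Finsupp.linearCombination_single, one_smul]

lemma Pm_Bs_of_mem (u : {w : W // ∃ g ∈ Γ, LRLe D g w}) :
    Pm D Γ K (Bs D Γ K u.1) = Finsupp.single u 1 := by
  classical
  apply Finsupp.ext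
  intro t
  rw [Pm_apply, Basis.repr_self, Finsupp.single_apply, Finsupp.single_apply]
  simp only [Subtype.ext_iff]

lemma Pm_Bs_of_not_mem {x : W} (hx : ¬ ∃ g ∈ Γ, LRLe D g x) :
    Pm D Γ K (Bs D Γ K x) = 0 := by
  classical
  apply Finsupp.ext
  intro t
  rw [Pm_apply, Basis.repr_self, Finsupp.single_apply, if_neg, Finsupp.zero_apply]
  rintro rfl
  exact hx t.2

lemma Pm_mul_of_not_mem {x : W} (hx : ¬ ∃ g ∈ Γ, LRLe D g x) (k : D.H) :
    Pm D Γ K (Bs D Γ K x * k) = 0 := by
  apply Finsupp.ext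
  intro t
  rw [Pm_apply, Bs_apply, smul_mul_assoc, map_smul, Finsupp.smul_apply, Bs_repr,
    Finsupp.zero_apply]
  by_cases h : D.C.repr (D.C x * k) t.1 = 0
  · rw [h, mul_zero, smul_zero]
  · exfalso
    apply hx
    obtain ⟨g, hg, hgt⟩ := t.2
    refine ⟨g, hg, hgt.tail ⟨1, k, ?_⟩⟩
    rwa [one_mul]

lemma Pm_mul_right {w : W} (hw : ¬ ∃ g ∈ Γ, LRLe D g w) (k : D.H) :
    Pm D Γ K (k * D.C w) = 0 := by
  apply Finsupp.ext
  intro t
  rw [Pm_apply, Bs_repr, Finsupp.zero_apply]
  by_cases h : D.C.repr (k * D.C w) t.1 = 0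
  · rw [h, mul_zero]
  · exfalso
    apply hw
    obtain ⟨g, hg, hgt⟩ := t.2
    refine ⟨g, hg, hgt.tail ⟨k, 1, ?_⟩⟩
    rwa [mul_one]

lemma Pm_Qm_Pm (y k : D.H) : Pm D Γ K (Qm D Γ K (Pm D Γ K y) * k) = Pm D Γ K (y * k) := by
  have key : (Pm D Γ K) ∘ₗ (LinearMap.mulRight A k) ∘ₗ (Qm D Γ K) ∘ₗ (Pm D Γ K)
      = (Pm D Γ K) ∘ₗ (LinearMap.mulRight A k) := by
    apply (Bs D Γ K).ext
    intro x
    simp only [LinearMap.comp_apply, LinearMap.mulRight_apply]
    by_cases hx : ∃ g ∈ Γ, LRLe D g x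
    · have h1 := Pm_Bs_of_mem D Γ K ⟨x, hx⟩
      have h2 := Qm_single D Γ K ⟨x, hx⟩
      simp only at h1 h2
      rw [h1, h2]
    · rw [Pm_Bs_of_not_mem D Γ K hx, map_zero, zero_mul, map_zero, Pm_mul_of_not_mem D Γ K hx]
  exact LinearMap.congr_fun key y

/-- the right action on the free module over `A` -/
noncomputable def rho (h : D.H) : ({w : W // ∃ g ∈ Γ, LRLe D g w} →₀ A) →ₗ[A]
    ({w : W // ∃ g ∈ Γ, LRLe D g w} →₀ A) :=
  (Pm D Γ K) ∘ₗ (LinearMap.mulRight A h) ∘ₗ (Qm D Γ K)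

lemma rho_apply (h : D.H) (n : {w : W // ∃ g ∈ Γ, LRLe D g w} →₀ A) :
    rho D Γ K h n = Pm D Γ K (Qm D Γ K n * h) := rfl

lemma Pm_Qm (n : {w : W // ∃ g ∈ Γ, LRLe D g w} →₀ A) : Pm D Γ K (Qm D Γ K n) = n := by
  have key : (Pm D Γ K) ∘ₗ (Qm D Γ K) = LinearMap.id := by
    apply Finsupp.lhom_ext'
    intro u
    apply LinearMap.ext_ring
    simp only [LinearMap.comp_apply, Finsupp.lsingle_apply, LinearMap.id_apply]
    rw [Qm_single, Pm_Bs_of_mem]
  exact LinearMap.congr_fun key n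

lemma rho_mul (h k : D.H) (n : {w : W // ∃ g ∈ Γ, LRLe D g w} →₀ A) :
    rho D Γ K (h * k) n = rho D Γ K k (rho D Γ K h n) := by
  rw [rho_apply, rho_apply, rho_apply, Pm_Qm_Pm, mul_assoc]

lemma rho_one (n : {w : W // ∃ g ∈ Γ, LRLe D g w} →₀ A) : rho D Γ K 1 n = n := by
  rw [rho_apply, mul_one, Pm_Qm]

lemma rho_add (h k : D.H) (n : {w : W // ∃ g ∈ Γ, LRLe D g w} →₀ A) :
    rho D Γ K (h + k) n = rho D Γ K h n + rho D Γ K k n := by
  rw [rho_apply, rho_apply, rho_apply, mul_add, map_add]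

lemma rho_algebraMap (a : A) (n : {w : W // ∃ g ∈ Γ, LRLe D g w} →₀ A) :
    rho D Γ K (algebraMap A D.H a) n = a • n := by
  rw [rho_apply, ← Algebra.commutes, ← Algebra.smul_def, map_smul, Pm_Qm]

/-- the coefficient ring without variables -/
abbrev S0 : Type := PS 0

lemma con_zero : (con 0 : S0) = 0 := map_zero (MvPolynomial.C : A →+* MvPolynomial (Fin 0) A)

lemma con_one : (con 1 : S0) = 1 := map_one (MvPolynomial.C : A →+* MvPolynomial (Fin 0) A)

lemma con_add (a b : A) : (con (a + b) : S0) = con a + con b :=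
  map_add (MvPolynomial.C : A →+* MvPolynomial (Fin 0) A) a b

lemma con_mul (a b : A) : (con (a * b) : S0) = con a * con b :=
  map_mul (MvPolynomial.C : A →+* MvPolynomial (Fin 0) A) a b

/-- extension of scalars on elements -/
noncomputable def up {ι : Type} (n : ι →₀ A) : ι →₀ S0 := n.mapRange (con : A → S0) con_zero

lemma up_apply {ι : Type} (n : ι →₀ A) (t : ι) : up n t = con (n t) := rfl

lemma up_add {ι : Type} (n m : ι →₀ A) : up (n + m) = up n + up m := by
  apply Finsupp.ext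
  intro t
  rw [Finsupp.add_apply, up_apply, up_apply, up_apply, Finsupp.add_apply, con_add]

lemma up_smul {ι : Type} (a : A) (n : ι →₀ A) :
    up (a • n) = (con a : S0) • up n := by
  apply Finsupp.ext
  intro t
  rw [Finsupp.smul_apply, up_apply, up_apply, Finsupp.smul_apply, smul_eq_mul, smul_eq_mul,
    con_mul]

lemma up_zero {ι : Type} : up (0 : ι →₀ A) = 0 := by
  apply Finsupp.ext
  intro t
  rw [up_apply, Finsupp.zero_apply, Finsupp.zero_apply, con_zero]

lemma up_single {ι : Type} (u : ι) : up (Finsupp.single u (1 : A)) = Finsupp.single u (1 : S0) := by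
  rw [up, Finsupp.mapRange_single, con_one]

/-- the action over `S0` -/
noncomputable def actL (h : D.H) : ({w : W // ∃ g ∈ Γ, LRLe D g w} →₀ S0) →ₗ[S0]
    ({w : W // ∃ g ∈ Γ, LRLe D g w} →₀ S0) :=
  Finsupp.linearCombination S0 (fun u => up (rho D Γ K h (Finsupp.single u 1)))

lemma actL_up (h : D.H) (n : {w : W // ∃ g ∈ Γ, LRLe D g w} →₀ A) :
    actL D Γ K h (up n) = up (rho D Γ K h n) := by
  induction n using Finsupp.induction_linear with
  | zero => rw [up_zero, map_zero, map_zero, up_zero]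
  | add n m hn hm => rw [up_add, map_add, map_add, up_add, hn, hm]
  | single u a =>
    have h1 : (Finsupp.single u a : {w : W // ∃ g ∈ Γ, LRLe D g w} →₀ A)
        = a • Finsupp.single u 1 := by
      rw [Finsupp.smul_single, smul_eq_mul, mul_one]
    rw [h1, up_smul, map_smul, map_smul, up_smul, up_single, actL,
      Finsupp.linearCombination_single, one_smul]

lemma actL_ext {F G : ({w : W // ∃ g ∈ Γ, LRLe D g w} →₀ S0) →ₗ[S0]
    ({w : W // ∃ g ∈ Γ, LRLe D g w} →₀ S0)}
    (h : ∀ n : {w : W // ∃ g ∈ Γ, LRLe D g w} →₀ A, F (up n) = G (up n)) : F = G := by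
  apply Finsupp.lhom_ext'
  intro u
  apply LinearMap.ext_ring
  simp only [LinearMap.comp_apply, Finsupp.lsingle_apply]
  rw [← up_single]
  exact h _

/-- the cell representation attached to `Γ` -/
noncomputable def rep : MatRep D.H where
  n := 0
  Idx := {w : W // ∃ g ∈ Γ, LRLe D g w}
  V := {w : W // ∃ g ∈ Γ, LRLe D g w} →₀ S0
  basis := Finsupp.basisSingleOne
  act :=
    { toFun := fun x => actL D Γ K x.unop
      map_one' := by
        apply actL_ext
        intro n
        rw [actL_up, unop_one, rho_one, Module.End.one_apply]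
      map_mul' := by
        intro x y
        apply actL_ext
        intro n
        rw [Module.End.mul_apply, actL_up, actL_up, actL_up, unop_mul, rho_mul]
      map_zero' := by
        apply actL_ext
        intro n
        rw [actL_up, unop_zero, rho_apply, mul_zero, map_zero, up_zero, LinearMap.zero_apply]
      map_add' := by
        intro x y
        apply actL_ext
        intro n
        rw [LinearMap.add_apply, actL_up, actL_up, actL_up, unop_add, rho_add, up_add] }
  act_scalar := by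
    intro a x
    have key : actL D Γ K (algebraMap A D.H a)
        = (con a : S0) • (LinearMap.id : _ →ₗ[S0] _) := by
      apply actL_ext
      intro n
      rw [actL_up, rho_algebraMap, LinearMap.smul_apply, LinearMap.id_apply, up_smul]
    exact LinearMap.congr_fun key x

lemma rep_entry (h : D.H) (u t : {w : W // ∃ g ∈ Γ, LRLe D g w}) :
    (rep D Γ K).entry h u t
      = (con ((Bs D Γ K).repr (Bs D Γ K u.1 * h) t.1) : S0) := by
  have h1 : (rep D Γ K).entry h u t = actL D Γ K h (Finsupp.single u 1) t := by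
    unfold MatRep.entry MatRep.crd MatRep.mulR
    show (Finsupp.basisSingleOne.repr (actL D Γ K h (Finsupp.basisSingleOne u))) t = _
    rw [Finsupp.coe_basisSingleOne, Finsupp.basisSingleOne_repr, LinearEquiv.refl_apply]
  rw [h1, ← up_single, actL_up, up_apply, rho_apply, Qm_single, Pm_apply]

end Pool.Agent.W2helper31.BS
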